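import Pool.Agent.H63.Arr.Ring

/-!
Cuts of the ring of double triangles used for the classes.
-/

set_option autoImplicit false

namespace Pool.Agent.H63.Arr

open Classical

variable {q L : ℕ}

theorem cut_a (x : RB q L → ℕ) (K : ℕ)
    (hx : ∀ X : RV q L → Prop, (∃ v, X v) → (∃ v, ¬ X v) → K ≤ bcut rbe x X)
    (g : Fin q) (j : Bool) (i i' : Fin L) (h : i < i') :
    K ≤ x (bp g j i) + x (bp g j i') := by
  have hi : i.1 < i'.1 := h
  have h1 := hx (Sum.elim (fun _ => False)
    (fun t => t.1 = g ∧ t.2.1 = j ∧ i.1 < t.2.2.1 ∧ t.2.2.1 ≤ i'.1))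
    ⟨Sum.inr (g, j, i'.castSucc), by simp [hi]⟩ ⟨Sum.inl 0, by simp⟩
  refine h1.trans ((bcut_le rbe x _ {bp g j i, bp g j i'} ?_).trans ?_)
  · rintro (u | ⟨g2, j2, i2⟩ | ⟨g2, s2, j2⟩ | ⟨g2, s2⟩) hb
    · simp [rbe] at hb
    · simp only [rbe, Sum.elim_inr, Fin.val_castSucc, Fin.val_succ] at hb
      by_cases hg : g2 = g
      · by_cases hj : j2 = j
        · subst hg; subst hj
          simp only [true_and] at hb
          have : i2.1 = i.1 ∨ i2.1 = i'.1 := by omega
          rcases this with h2 | h2
          · have : i2 = i := Fin.ext h2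
            subst this; simp
          · have : i2 = i' := Fin.ext h2
            subst this; simp
        · exact absurd (by simp [hj]) hb
      · exact absurd (by simp [hg]) hb
    · exfalso
      apply hb
      have := i'.2
      cases s2 <;> simp [rbe, en] <;> intros <;> omega
    · exfalso
      apply hb
      have := i'.2
      cases s2
      · simp [rbe, en]
      · simp only [rbe, en, if_true, Sum.elim_inr, Fin.val_last]
        constructor <;> rintro ⟨_, _, _, h4⟩ <;> omega
  · refine (sum_ins _ _ _).trans ?_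
    simp

theorem cut_b (x : RB q L → ℕ) (K : ℕ)
    (hx : ∀ X : RV q L → Prop, (∃ v, X v) → (∃ v, ¬ X v) → K ≤ bcut rbe x X)
    (g : Fin q) (s j : Bool) (i : Fin L) :
    K ≤ x (bp g j i) + (x (bz L g s j) + x (bb L g s)) := by
  have h1 := hx (Sum.elim (fun _ => False)
    (fun t => t.1 = g ∧ t.2.1 = j ∧ (if s then i.1 < t.2.2.1 else t.2.2.1 ≤ i.1)))
    (by
      cases s
      · exact ⟨Sum.inr (g, j, 0), by simp⟩
      · exact ⟨Sum.inr (g, j, Fin.last L), by simp [i.2]⟩) ⟨Sum.inl 0, by simp⟩
  refine h1.trans ((bcut_le rbe x _ {bp g j i, bz L g s j, bb L g s} ?_).trans ?_)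
  · rintro (u | ⟨g2, j2, i2⟩ | ⟨g2, s2, j2⟩ | ⟨g2, s2⟩) hb
    · simp [rbe] at hb
    · simp only [rbe, Sum.elim_inr, Fin.val_castSucc, Fin.val_succ] at hb
      by_cases hg : g2 = g
      · by_cases hj : j2 = j
        · subst hg; subst hj
          simp only [true_and] at hb
          have : i2.1 = i.1 := by
            cases s
            · simp only [Bool.false_eq_true, if_false] at hb
              omega
            · simp only [if_true] at hb
              omega
          have : i2 = i := Fin.ext this
          subst this; simp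
        · exact absurd (by simp [hj]) hb
      · exact absurd (by simp [hg]) hb
    · by_cases hg : g2 = g
      · by_cases hj : j2 = j
        · by_cases hs : s2 = s
          · subst hg; subst hj; subst hs; simp
          · exfalso
            apply hb
            have := i.2
            cases s <;> cases s2 <;> simp [rbe, en] at hs ⊢ <;> intros <;> omega
        · exact absurd (by simp [rbe, hj]) hb
      · exact absurd (by simp [rbe, hg]) hb
    · by_cases hg : g2 = g
      · by_cases hs : s2 = s
        · subst hg; subst hs; simp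
        · exfalso
          apply hb
          have := i.2
          cases s <;> cases s2 <;> simp [rbe, en] at hs ⊢ <;> constructor <;> intros <;> omega
      · exact absurd (by simp [rbe, hg]) hb
  · refine (sum_ins _ _ _).trans ?_
    refine Nat.add_le_add_left ((sum_ins _ _ _).trans ?_) _
    simp

theorem cut_c (x : RB q L → ℕ) (K : ℕ)
    (hx : ∀ X : RV q L → Prop, (∃ v, X v) → (∃ v, ¬ X v) → K ≤ bcut rbe x X)
    (g : Fin q) (j : Bool) :
    K ≤ (x (bz L g false j) + x (bb L g false)) + (x (bz L g true j) + x (bb L g true)) := by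
  have h1 := hx (Sum.elim (fun _ => False) (fun t => t.1 = g ∧ t.2.1 = j))
    ⟨Sum.inr (g, j, 0), by simp⟩ ⟨Sum.inl 0, by simp⟩
  refine h1.trans ((bcut_le rbe x _
    {bz L g false j, bb L g false, bz L g true j, bb L g true} ?_).trans ?_)
  · rintro (u | ⟨g2, j2, i2⟩ | ⟨g2, s2, j2⟩ | ⟨g2, s2⟩) hb
    · simp [rbe] at hb
    · simp [rbe] at hb
    · by_cases hg : g2 = g
      · by_cases hj : j2 = j
        · subst hg; subst hj
          cases s2 <;> simp
        · exact absurd (by simp [rbe, hj]) hb
      · exact absurd (by simp [rbe, hg]) hb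
    · by_cases hg : g2 = g
      · subst hg
        cases s2 <;> simp
      · exact absurd (by simp [rbe, hg]) hb
  · have e1 := sum_ins x (bz L g false j) {bb L g false, bz L g true j, bb L g true}
    have e2 := sum_ins x (bb L g false) {bz L g true j, bb L g true}
    have e3 := sum_ins x (bz L g true j) {bb L g true}
    rw [Finset.sum_singleton] at e3
    omega

/-- place of a vertex in the ring -/
def rk : RV q L → ℕ
  | Sum.inl m => 2 * m.1
  | Sum.inr (g, _, _) => 2 * g.1 + 1

theorem cut_d0 (x : RB q L → ℕ) (K : ℕ)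
    (hx : ∀ X : RV q L → Prop, (∃ v, X v) → (∃ v, ¬ X v) → K ≤ bcut rbe x X)
    (g g' : Fin q) (s s' : Bool) (h : 2 * g.1 + s.toNat < 2 * g'.1 + s'.toNat) :
    K ≤ (x (bz L g s false) + x (bz L g s true)) +
      (x (bz L g' s' false) + x (bz L g' s' true)) := by
  have h1 := hx (fun v => 2 * g.1 + s.toNat < rk v ∧ rk v ≤ 2 * g'.1 + s'.toNat)
    (by
      cases s
      · exact ⟨Sum.inr (g, false, 0), by simp only [rk]; simp at h ⊢; omega⟩
      · exact ⟨Sum.inl g.succ, by simp only [rk]; simp at h ⊢; omega⟩)
    ⟨Sum.inl 0, by simp [rk]⟩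
  refine h1.trans ((bcut_le rbe x _
    {bz L g s false, bz L g s true, bz L g' s' false, bz L g' s' true} ?_).trans ?_)
  · rintro (u | ⟨g2, j2, i2⟩ | ⟨g2, s2, j2⟩ | ⟨g2, s2⟩) hb
    · exfalso
      apply hb
      have h2 := g'.2
      have h3 : s'.toNat ≤ 1 := by cases s' <;> simp
      simp only [rbe, rk, Fin.val_last, Fin.val_zero]
      omega
    · exact absurd (by simp [rbe, rk]) hb
    · have h3 : s'.toNat ≤ 1 := by cases s' <;> simp
      have h4 : s.toNat ≤ 1 := by cases s <;> simp
      have h5 : 2 * g2.1 + s2.toNat = 2 * g.1 + s.toNat ∨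
          2 * g2.1 + s2.toNat = 2 * g'.1 + s'.toNat := by
        cases s2
        · simp only [rbe, rk, zz, Bool.false_eq_true, if_false, Fin.val_castSucc] at hb
          simp only [Bool.toNat_false]
          omega
        · simp only [rbe, rk, zz, if_true, Fin.val_succ] at hb
          simp only [Bool.toNat_true]
          omega
      have h6 : ∀ (t t' : Bool) (a b : Fin q), 2 * a.1 + t.toNat = 2 * b.1 + t'.toNat →
          a = b ∧ t = t' := by
        intro t t' a b hab
        cases t <;> cases t' <;> simp at hab ⊢ <;> first | exact Fin.ext hab | omega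
      rcases h5 with h5 | h5
      · obtain ⟨rfl, rfl⟩ := h6 _ _ _ _ h5
        cases j2 <;> simp
      · obtain ⟨rfl, rfl⟩ := h6 _ _ _ _ h5
        cases j2 <;> simp
    · exact absurd (by simp [rbe, rk]) hb
  · have e1 := sum_ins x (bz L g s false) {bz L g s true, bz L g' s' false, bz L g' s' true}
    have e2 := sum_ins x (bz L g s true) {bz L g' s' false, bz L g' s' true}
    have e3 := sum_ins x (bz L g' s' false) {bz L g' s' true}
    rw [Finset.sum_singleton] at e3
    omega

theorem cut_d (x : RB q L → ℕ) (K : ℕ)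
    (hx : ∀ X : RV q L → Prop, (∃ v, X v) → (∃ v, ¬ X v) → K ≤ bcut rbe x X)
    (g g' : Fin q) (s s' : Bool) (h : g ≠ g') :
    K ≤ (x (bz L g s false) + x (bz L g s true)) +
      (x (bz L g' s' false) + x (bz L g' s' true)) := by
  have h3 : s'.toNat ≤ 1 := by cases s' <;> simp
  have h4 : s.toNat ≤ 1 := by cases s <;> simp
  rcases lt_or_gt_of_ne h with h | h
  · have h5 : g.1 < g'.1 := h
    exact cut_d0 x K hx g g' s s' (by omega)
  · have h5 : g'.1 < g.1 := h
    have := cut_d0 x K hx g' g s' s (by omega)
    omega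

end Pool.Agent.H63.Arr
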