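import Pool.Agent.H63.Arr.Cls

/-!
Counting the edges of the classes in the ring of double triangles.
-/

set_option autoImplicit false

namespace Pool.Agent.H63.Arr

open Classical

/-- Loss of a class: `0` if `K ≡ 0`, `2` if `K ≡ 2` modulo `4`, and `3` if `K` is odd. -/
def dl (K : ℕ) : ℕ := if K % 4 = 0 then 0 else if K % 4 = 2 then 2 else 3

theorem path_sum {M : ℕ} (x : Fin (M + 2) → ℕ) (K : ℕ)
    (hx : ∀ i i', i ≠ i' → K ≤ x i + x i') :
    (K + K % 2) * (M + 2) ≤ 2 * (∑ i, x i) + 2 ∧
    (K % 2 = 0 → K * (M + 2) ≤ 2 * ∑ i, x i) ∧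
    (K % 2 = 0 → (∃ i, 2 * x i = K) ∨ (K + 2) * (M + 2) ≤ 2 * (∑ i, x i) + 4) := by
  have hconst : ∀ c : ℕ, (∀ i, c ≤ 2 * x i) → c * (M + 2) ≤ 2 * ∑ i, x i := by
    intro c hc
    have h1 : ∑ _i : Fin (M + 2), c ≤ ∑ i, 2 * x i := Finset.sum_le_sum fun i _ => hc i
    rw [Finset.sum_const, Finset.card_univ, Fintype.card_fin, smul_eq_mul,
      ← Finset.mul_sum] at h1
    rw [mul_comm]
    exact h1
  by_cases h : ∃ i0, 2 * x i0 < K
  · obtain ⟨i0, h0⟩ := h
    obtain ⟨D, hD⟩ : ∃ D, K = x i0 + D := ⟨K - x i0, by omega⟩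
    have h1 : x i0 + (M + 1) * D ≤ ∑ i, x i := by
      rw [← Finset.add_sum_erase Finset.univ x (Finset.mem_univ i0)]
      refine Nat.add_le_add_left ?_ _
      have h2 : ∑ _i ∈ Finset.univ.erase i0, D ≤ ∑ i ∈ Finset.univ.erase i0, x i := by
        refine Finset.sum_le_sum fun i hi => ?_
        have := hx i0 i (Finset.ne_of_mem_erase hi).symm
        omega
      rw [Finset.sum_const, Finset.card_erase_of_mem (Finset.mem_univ i0), Finset.card_univ,
        Fintype.card_fin, smul_eq_mul] at h2
      exact h2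
    set S := ∑ i, x i
    set y := x i0
    have hDy : y + 1 ≤ D := by omega
    rcases Nat.mod_two_eq_zero_or_one K with hK | hK
    · have hDy2 : y + 2 ≤ D := by omega
      have h3 := Nat.mul_le_mul_left M hDy2
      rw [hK]
      refine ⟨?_, fun _ => ?_, fun _ => Or.inr ?_⟩
      · rw [hD]; nlinarith
      · rw [hD]; nlinarith
      · rw [hD]; nlinarith
    · have h3 := Nat.mul_le_mul_left M hDy
      rw [hK]
      refine ⟨?_, fun h => by omega, fun h => by omega⟩
      rw [hD]; nlinarith
  · push Not at h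
    refine ⟨?_, fun _ => hconst K h, fun hK => ?_⟩
    · rcases Nat.mod_two_eq_zero_or_one K with hK | hK
      · rw [hK]
        have := hconst K h
        simpa using Nat.le_add_right_of_le this
      · rw [hK]
        have := hconst (K + 1) fun i => by have := h i; omega
        omega
    · by_cases he : ∃ i, 2 * x i = K
      · exact Or.inl he
      · push Not at he
        right
        have := hconst (K + 2) fun i => by
          have h1 := h i
          have h2 := he i
          omega
        omega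

/-- Lower bound for the weight of a class in one double triangle. -/
theorem gadget {M : ℕ} (x : Bool → Fin (M + 2) → ℕ) (a : Bool → Bool → ℕ) (e : Bool → ℕ) (K : ℕ)
    (hP : ∀ j i i', i ≠ i' → K ≤ x j i + x j i')
    (hB : ∀ s j i, K ≤ x j i + (a s j + e s))
    (hC : ∀ j, K ≤ (a false j + e false) + (a true j + e true))
    (hD : ∀ s, K ≤ 2 * (a s false + a s true)) :
    (5 * K + dl K) * (M + 2) ≤ 2 * ((∑ j, ∑ i, x j i) +
      (M + 2) * ((∑ s, ∑ j, a s j) + ∑ s, e s)) + 4 := by
  simp only [Fintype.sum_bool]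
  obtain ⟨f1, f2, f3⟩ := path_sum (x false) K (hP false)
  obtain ⟨t1, t2, t3⟩ := path_sum (x true) K (hP true)
  set X0 := ∑ i, x false i
  set X1 := ∑ i, x true i
  set T := (a true true + a true false + (a false true + a false false)) + (e true + e false)
    with hT
  have c0 := hC false
  have c1 := hC true
  have d0 := hD false
  have d1 := hD true
  have hfin : ∀ A B : ℕ, 2 * X1 + 2 * X0 + 4 ≥ A * (M + 2) → B ≤ 2 * T →
      5 * K + dl K ≤ A + B →
      (5 * K + dl K) * (M + 2) ≤ 2 * (X1 + X0 + (M + 2) * T) + 4 := by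
    intro A B hA hB' hAB
    have h1 := Nat.mul_le_mul_right (M + 2) hAB
    have h2 := Nat.mul_le_mul_right (M + 2) hB'
    rw [add_mul] at h1
    nlinarith
  rcases Nat.mod_two_eq_zero_or_one K with hK | hK
  · have f2' := f2 hK
    have t2' := t2 hK
    by_cases h4 : K % 4 = 0
    · refine hfin (2 * K) (3 * K) ?_ ?_ ?_
      · nlinarith
      · omega
      · simp only [dl, h4, if_true]; omega
    · have h4' : K % 4 = 2 := by omega
      have hdl : dl K = 2 := by simp [dl, h4']
      rcases f3 hK with ⟨i0, hi0⟩ | f3'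
      · rcases t3 hK with ⟨i1, hi1⟩ | t3'
        · refine hfin (2 * K) (3 * K + 2) ?_ ?_ ?_
          · nlinarith
          · have b1 := hB false false i0
            have b2 := hB true false i0
            have b3 := hB false true i1
            have b4 := hB true true i1
            omega
          · omega
        · refine hfin (2 * K + 2) (3 * K) ?_ ?_ ?_
          · nlinarith
          · omega
          · omega
      · refine hfin (2 * K + 2) (3 * K) ?_ ?_ ?_
        · nlinarith
        · omega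
        · omega
  · have hdl : dl K = 3 := by
      unfold dl
      rw [if_neg (by omega), if_neg (by omega)]
    rw [hK] at f1 t1
    refine hfin (2 * (K + 1)) (3 * K + 1) ?_ ?_ ?_
    · nlinarith
    · omega
    · omega

/-- All but one term at least `c`. -/
theorem sum_but_one {Q : ℕ} (F : Fin (Q + 1) → ℕ) (bad : Fin (Q + 1) → Prop) (c : ℕ)
    (h1 : ∀ g g', bad g → bad g' → g = g') (h2 : ∀ g, ¬ bad g → c ≤ F g) :
    Q * c ≤ ∑ g, F g := by
  by_cases h : ∃ g, bad g
  · obtain ⟨g0, h0⟩ := h
    rw [← Finset.add_sum_erase Finset.univ F (Finset.mem_univ g0)]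
    have h3 : ∑ _g ∈ Finset.univ.erase g0, c ≤ ∑ g ∈ Finset.univ.erase g0, F g := by
      refine Finset.sum_le_sum fun g hg => h2 g fun hb => ?_
      exact (Finset.ne_of_mem_erase hg) (h1 g g0 hb h0)
    rw [Finset.sum_const, Finset.card_erase_of_mem (Finset.mem_univ g0), Finset.card_univ,
      Fintype.card_fin, smul_eq_mul] at h3
    exact h3.trans (Nat.le_add_left _ _)
  · push Not at h
    have h3 : ∑ _g : Fin (Q + 1), c ≤ ∑ g, F g := Finset.sum_le_sum fun g _ => h2 g (h g)
    rw [Finset.sum_const, Finset.card_univ, Fintype.card_fin, smul_eq_mul] at h3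
    exact le_trans (Nat.mul_le_mul_right c (Nat.le_succ Q)) h3

/-- Weight of a function on the bundles in the `g`-th double triangle. -/
def wt {q M : ℕ} (x : RB q (M + 2) → ℕ) (g : Fin q) : ℕ :=
  (∑ j, ∑ i, x (bp g j i)) + (M + 2) * ((∑ s, ∑ j, x (bz (M + 2) g s j)) +
    ∑ s, x (bb (M + 2) g s))

theorem class_wt {Q M : ℕ} (x : RB (Q + 1) (M + 2) → ℕ) (K : ℕ)
    (hx : ∀ X : RV (Q + 1) (M + 2) → Prop, (∃ v, X v) → (∃ v, ¬ X v) → K ≤ bcut rbe x X) :
    Q * ((5 * K + dl K) * (M + 2)) ≤ 2 * (∑ g, wt x g) + 4 * (Q + 1) := by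
  have h1 : Q * ((5 * K + dl K) * (M + 2)) ≤ ∑ g, (2 * wt x g + 4) := by
    refine sum_but_one _ (fun g => ∃ s, 2 * (x (bz (M + 2) g s false) +
      x (bz (M + 2) g s true)) < K) _ ?_ ?_
    · rintro g g' ⟨s, hs⟩ ⟨s', hs'⟩
      by_contra hne
      have := cut_d x K hx g g' s s' hne
      omega
    · intro g hg
      push Not at hg
      exact gadget (fun j i => x (bp g j i)) (fun s j => x (bz (M + 2) g s j))
        (fun s => x (bb (M + 2) g s)) K
        (by
          intro j i i' hne
          rcases lt_or_gt_of_ne hne with h | h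
          · exact cut_a x K hx g j i i' h
          · have := cut_a x K hx g j i' i h
            omega)
        (fun s j i => cut_b x K hx g s j i) (fun j => cut_c x K hx g j) hg
  rw [Finset.sum_add_distrib, ← Finset.mul_sum] at h1
  simp only [Finset.sum_const, Finset.card_univ, Fintype.card_fin, smul_eq_mul] at h1
  omega

theorem wt_rmu {q M : ℕ} (p : ℕ) (g : Fin q) :
    wt (rmu p : RB q (M + 2) → ℕ) g = (M + 2) * (4 * p + 2 * ((p + 1) / 2)) := by
  unfold wt
  simp only [rmu, Fintype.sum_bool, Finset.sum_const, Finset.card_univ, Fintype.card_fin,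
    Fintype.card_bool, smul_eq_mul, tau, if_true, Bool.false_eq_true, if_false]
  have : p / 2 + (p + 1) / 2 = p := by omega
  rw [this]
  ring

theorem main {r : ℕ} (ks : Fin r → ℕ) (p : ℕ)
    (hA : Pool.Agent.Helper243Arrow.Arrow (2 * p) ks) :
    ∑ i, (ks i + ks i % 2) ≤ 2 * p ∧
      ∑ i, (5 * ks i + dl (ks i)) ≤ 2 * (4 * p + 2 * ((p + 1) / 2)) := by
  obtain ⟨m, hm⟩ : ∃ m, 4 * p + 2 * ((p + 1) / 2) = m := ⟨_, rfl⟩
  rw [hm]
  obtain ⟨M, hM⟩ : ∃ M, M + 2 = 8 * (r + 1) := ⟨8 * (r + 1) - 2, by omega⟩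
  obtain ⟨x, hx1, hx2⟩ := fat (rbe : RB (4 * m + 2 + 1) (M + 2) → _) (rmu p) (2 * p)
    (ring_cut p) ks hA
  constructor
  · have h1 : ∀ i, (ks i + ks i % 2) * (M + 2) ≤
        2 * (∑ l, x i (bp 0 true l)) + 2 := by
      intro i
      refine (path_sum (fun l => x i (bp 0 true l)) (ks i) ?_).1
      intro a b hne
      rcases lt_or_gt_of_ne hne with h | h
      · exact cut_a (x i) (ks i) (hx2 i) 0 true a b h
      · have := cut_a (x i) (ks i) (hx2 i) 0 true b a h
        omega
    have h2 : ∑ i, (ks i + ks i % 2) * (M + 2) ≤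
        ∑ i, (2 * (∑ l, x i (bp 0 true l)) + 2) := Finset.sum_le_sum fun i _ => h1 i
    have h3 : ∑ i, ∑ l, x i (bp 0 true l) = (M + 2) * p := by
      rw [Finset.sum_comm]
      simp only [hx1, rmu, Finset.sum_const, Finset.card_univ, Fintype.card_fin, smul_eq_mul]
    have h4 : ∑ i, (2 * (∑ l, x i (bp 0 true l)) + 2) = 2 * ((M + 2) * p) + r * 2 := by
      rw [Finset.sum_add_distrib, ← Finset.mul_sum, h3]
      simp
    rw [← Finset.sum_mul, h4] at h2
    by_contra hcon
    push Not at hcon
    have h5 := Nat.mul_le_mul_right (M + 2) hcon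
    rw [hM] at h2 h5
    nlinarith
  · have h1 : ∑ i, (4 * m + 2) * ((5 * ks i + dl (ks i)) * (M + 2)) ≤
        ∑ i, (2 * (∑ g, wt (x i) g) + 4 * (4 * m + 2 + 1)) :=
      Finset.sum_le_sum fun i _ => class_wt (x i) (ks i) (hx2 i)
    have h2 : ∑ i, ∑ g, wt (x i) g = (4 * m + 2 + 1) * ((M + 2) * m) := by
      rw [Finset.sum_comm]
      have : ∀ g, ∑ i, wt (x i) g = (M + 2) * m := by
        intro g
        have h3 := wt_rmu (M := M) p g
        rw [hm] at h3
        rw [← h3]
        unfold wt
        simp only [← hx1]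
        rw [Finset.sum_add_distrib, ← Finset.mul_sum, Finset.sum_add_distrib]
        congr 1
        · rw [Finset.sum_comm]
          refine Finset.sum_congr rfl fun j _ => ?_
          rw [Finset.sum_comm]
        · congr 2
          · rw [Finset.sum_comm]
            refine Finset.sum_congr rfl fun j _ => ?_
            rw [Finset.sum_comm]
          · rw [Finset.sum_comm]
      simp only [this, Finset.sum_const, Finset.card_univ, Fintype.card_fin, smul_eq_mul]
    have h4 : ∑ i, (2 * (∑ g, wt (x i) g) + 4 * (4 * m + 2 + 1)) =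
        2 * ((4 * m + 2 + 1) * ((M + 2) * m)) + r * (4 * (4 * m + 2 + 1)) := by
      rw [Finset.sum_add_distrib, ← Finset.mul_sum, h2]
      simp
    rw [← Finset.mul_sum, ← Finset.sum_mul, h4] at h1
    by_contra hcon
    push Not at hcon
    have h3 : (4 * m + 2) * ((2 * m + 1) * (M + 2)) ≤
        (4 * m + 2) * ((∑ i, (5 * ks i + dl (ks i))) * (M + 2)) := by
      refine Nat.mul_le_mul_left _ (Nat.mul_le_mul_right _ ?_)
      omega
    rw [hM] at h1 h3
    nlinarith

end Pool.Agent.H63.Arr
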