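import Pool.Agent.H63.Arr.Fat

/-!
Gadgets which force all dangling edges to have the same weight in every class without waste.
(The idea of using balanced halves and the transmission of weights is due to helper65.)
-/

set_option autoImplicit false

namespace Pool.Agent.H63.Arr

open Pool.Agent.Helper243Arrow
open Classical

variable {h : ℕ}

/-- The weight `w`, `s` of a class has the value `κ` on all vertex sets with exactly `2h` boundary
edges. -/
def Tight (κ : ℕ) (G : Gad h) (w : G.E → ℕ) (s : Fin h ⊕ Fin h → ℕ) : Prop :=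
  ∀ X : G.V → Prop, (∃ v, X v) → G.cut (fun _ => 1) (fun _ => 1) X = 2 * h → G.cut w s X = κ

theorem cut_all (G : Gad h) (w : G.E → ℕ) (s : Fin h ⊕ Fin h → ℕ) :
    G.cut w s (fun _ => True) = ∑ i, s (.inl i) + ∑ i, s (.inr i) := by
  rw [cut_split]
  simp

theorem tight_total (κ : ℕ) (G : Gad h) (hV : Nonempty G.V) (w : G.E → ℕ)
    (s : Fin h ⊕ Fin h → ℕ) (hT : Tight κ G w s) :
    ∑ i, s (.inl i) + ∑ i, s (.inr i) = κ := by
  obtain ⟨v⟩ := hV
  rw [← cut_all G w s]
  apply hT _ ⟨v, trivial⟩
  rw [cut_all]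
  simp
  omega

theorem elim_one : (Sum.elim (fun _ => 1) (fun _ => 1) : Fin h ⊕ Fin h → ℕ) = fun _ => 1 := by
  funext d
  cases d <;> rfl

theorem tight_comp (κ : ℕ) (X Y : Gad h) (w : (comp X Y).E → ℕ) (s : Fin h ⊕ Fin h → ℕ)
    (hT : Tight κ (comp X Y) w s) :
    Tight κ X (fun e => w (.inl e))
      (Sum.elim (fun i => s (.inl i)) (fun i => w (.inr (.inr i)))) ∧
    Tight κ Y (fun e => w (.inr (.inl e)))
      (Sum.elim (fun i => w (.inr (.inr i))) (fun i => s (.inr i))) := by
  constructor
  · intro P hP h1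
    rw [← cut_comp_left]
    obtain ⟨v, hv⟩ := hP
    apply hT _ ⟨.inl v, hv⟩
    rw [cut_comp_left, elim_one]
    exact h1
  · intro P hP h1
    rw [← cut_comp_right]
    obtain ⟨v, hv⟩ := hP
    apply hT _ ⟨.inr v, hv⟩
    rw [cut_comp_right, elim_one]
    exact h1

/-- The gadget forces the equality of the weights of the given pairs of dangling edges. -/
def Forces (G : Gad h) (ρ : List (Fin h × Fin h)) : Prop :=
  ∀ (κ : ℕ) (w : G.E → ℕ) (s : Fin h ⊕ Fin h → ℕ), Tight κ G w s →
    2 * ∑ i, s (.inl i) = κ → 2 * ∑ i, s (.inr i) = κ → ∀ p ∈ ρ, s (.inl p.1) = s (.inr p.2)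

/-- All vertices have degree `2h`. -/
def RegG (G : Gad h) : Prop :=
  ∀ v, G.cut (fun _ => 1) (fun _ => 1) (fun u => u = v) = 2 * h

theorem reg_vert : RegG (vert h) := by
  intro v
  have h1 : (fun u => u = v) = (fun _ : (vert h).V => True) := by
    funext u
    cases u
    cases v
    simp
  rw [h1, cut_all]
  simp
  omega

theorem reg_swap (G : Gad h) (i j : Fin h) (hG : RegG G) : RegG (G.swap i j) := by
  intro v
  have h1 := hG v
  rw [cut_swap]
  exact h1

theorem reg_comp (X Y : Gad h) (hX : RegG X) (hY : RegG Y) : RegG (comp X Y) := by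
  rintro (v | v)
  · have h1 : (fun u : (comp X Y).V => u = Sum.inl v) =
        Sum.elim (fun u => u = v) (fun _ => False) := by
      funext u
      rcases u with u | u
      · exact propext ⟨fun h => Sum.inl.inj h, fun h => congrArg Sum.inl h⟩
      · exact propext ⟨fun h => by simp at h, fun h => h.elim⟩
    rw [h1, cut_comp_left, elim_one]
    exact hX v
  · have h1 : (fun u : (comp X Y).V => u = Sum.inr v) =
        Sum.elim (fun _ => False) (fun u => u = v) := by
      funext u
      rcases u with u | u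
      · exact propext ⟨fun h => by simp at h, fun h => h.elim⟩
      · exact propext ⟨fun h => Sum.inr.inj h, fun h => congrArg Sum.inr h⟩
    rw [h1, cut_comp_right, elim_one]
    exact hY v

theorem exists_forces : ∀ (n : ℕ) (ρ : List (Fin h × Fin h)), ρ.length = n →
    ∃ G : Gad h, Nonempty G.V ∧ (G.Conn ∧ RegG G) ∧ Forces G ρ := by
  intro n
  induction n with
  | zero =>
    intro ρ hρ
    rw [List.length_eq_zero_iff] at hρ
    subst hρ
    exact ⟨vert h, ⟨()⟩, ⟨conn_vert h, reg_vert⟩, fun κ w s _ _ _ p hp => absurd hp (by simp)⟩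
  | succ n ih =>
    intro ρ hρ
    cases ρ with
    | nil => simp at hρ
    | cons ab ρ =>
      obtain ⟨a, b⟩ := ab
      have hlen : ρ.length = n := by simpa using hρ
      obtain ⟨G1, hV1, ⟨hC1, hR1⟩, hF1⟩ := ih (ρ.map fun p => (p.1, p.1)) (by simpa using hlen)
      obtain ⟨G2, hV2, ⟨hC2, hR2⟩, hF2⟩ := ih ρ hlen
      refine ⟨(comp G1 G2).swap a b, ?_, ⟨conn_swap _ _ _ (conn_comp _ _ hC1 hC2),
        reg_swap _ _ _ (reg_comp _ _ hR1 hR2)⟩, ?_⟩
      · obtain ⟨v⟩ := hV1
        exact ⟨(Sum.inl v : G1.V ⊕ G2.V)⟩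
      intro κ w s hT hL hR
      set s' : Fin h ⊕ Fin h → ℕ := fun d => s (Equiv.swap (Sum.inl a) (Sum.inr b) d) with hs'
      have hT' : Tight κ (comp G1 G2) w s' := by
        intro X hX h1
        have h2 := hT X hX (by
          rw [cut_swap]
          exact h1)
        rw [cut_swap] at h2
        exact h2
      obtain ⟨hT1, hT2⟩ := tight_comp κ G1 G2 w s' hT'
      have hV : Nonempty (comp G1 G2).V := by
        obtain ⟨v⟩ := hV1
        exact ⟨(Sum.inl v : G1.V ⊕ G2.V)⟩
      have t0 := tight_total κ _ hV w s' hT'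
      have t1 := tight_total κ _ hV1 _ _ hT1
      have t2 := tight_total κ _ hV2 _ _ hT2
      simp only [Sum.elim_inl, Sum.elim_inr] at t1 t2
      have e1 : s' (.inl a) = s (.inr b) := by simp [hs']
      have e2 : ∀ i, i ≠ a → s' (.inl i) = s (.inl i) := by
        intro i hi
        simp only [hs']
        rw [Equiv.swap_apply_of_ne_of_ne (by simpa using hi) (by simp)]
      have e3 : s' (.inr b) = s (.inl a) := by simp [hs']
      have e4 : ∀ i, i ≠ b → s' (.inr i) = s (.inr i) := by
        intro i hi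
        simp only [hs']
        rw [Equiv.swap_apply_of_ne_of_ne (by simp) (by simpa using hi)]
      have hab : s (.inl a) = s (.inr b) := by
        have h1 := Finset.add_sum_erase Finset.univ (fun i => s' (.inl i)) (Finset.mem_univ a)
        have h2 := Finset.add_sum_erase Finset.univ (fun i => s (.inl i)) (Finset.mem_univ a)
        have h3 : ∑ i ∈ Finset.univ.erase a, s' (.inl i) =
            ∑ i ∈ Finset.univ.erase a, s (.inl i) :=
          Finset.sum_congr rfl fun i hi => e2 i (Finset.ne_of_mem_erase hi)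
        beta_reduce at h1 h2
        rw [h3, e1] at h1
        omega
      have f1 : ∀ i, s' (.inl i) = s (.inl i) := by
        intro i
        by_cases hi : i = a
        · rw [hi, e1, hab]
        · exact e2 i hi
      have f2 : ∀ i, s' (.inr i) = s (.inr i) := by
        intro i
        by_cases hi : i = b
        · rw [hi, e3, hab]
        · exact e4 i hi
      intro p hp
      rcases List.mem_cons.mp hp with rfl | hp
      · exact hab
      · have g1 := hF1 κ _ _ hT1 (by simp only [Sum.elim_inl]; omega)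
          (by simp only [Sum.elim_inr]; omega) (p.1, p.1) (List.mem_map.mpr ⟨p, hp, rfl⟩)
        have g2 := hF2 κ _ _ hT2 (by simp only [Sum.elim_inl]; omega)
          (by simp only [Sum.elim_inr]; omega) p hp
        simp only [Sum.elim_inl, Sum.elim_inr] at g1 g2
        rw [← f1, g1, g2, f2]

/-- A gadget in which every class without waste has a value divisible by `2h`. -/
theorem exists_div (hh : 1 ≤ h) : ∃ G : Gad h, (G.Conn ∧ RegG G) ∧
    ∀ (κ : ℕ) (w : G.E → ℕ) (s : Fin h ⊕ Fin h → ℕ), Tight κ G w s → 2 * h ∣ κ := by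
  obtain ⟨G, hV, ⟨hC, hR⟩, hF⟩ := exists_forces (h := h) _
    ((Finset.univ : Finset (Fin h × Fin h)).toList) rfl
  refine ⟨comp G (vert h), ⟨conn_comp _ _ hC (conn_vert h), reg_comp _ _ hR reg_vert⟩, ?_⟩
  intro κ w s hT
  obtain ⟨hT1, hT2⟩ := tight_comp κ G (vert h) w s hT
  have hV' : Nonempty (comp G (vert h)).V := by
    obtain ⟨v⟩ := hV
    exact ⟨(Sum.inl v : G.V ⊕ Unit)⟩
  have t0 := tight_total κ _ hV' w s hT
  have t1 := tight_total κ _ hV _ _ hT1
  have t2 := tight_total κ _ ⟨()⟩ _ _ hT2
  simp only [Sum.elim_inl, Sum.elim_inr] at t1 t2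
  have g := hF κ _ _ hT1 (by simp only [Sum.elim_inl]; omega)
    (by simp only [Sum.elim_inr]; omega)
  simp only [Sum.elim_inl, Sum.elim_inr, Finset.mem_toList, Finset.mem_univ, forall_const] at g
  set b0 : Fin h := ⟨0, hh⟩
  have h1 : ∑ i, s (.inl i) = h * w (.inr (.inr b0)) := by
    rw [Finset.sum_congr rfl fun i _ => g (i, b0)]
    simp
  refine ⟨w (.inr (.inr b0)), ?_⟩
  rw [mul_assoc, ← h1]
  omega

end Pool.Agent.H63.Arr
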