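import Pool.Graph.R_pool_sql_team_seeded_620a6dc7.Helper243_Arrow.Close

/-!
Multigraphs given by bundles of parallel edges: the arrow relation gives, for each class, the
number of its edges in each bundle, and all cuts of these numbers are large.
-/

set_option autoImplicit false

namespace Pool.Agent.H63.Arr

open Pool.Agent.Helper243Arrow
open Classical

/-- Total of the numbers `x b` over the bundles `b` crossing `X`. -/
noncomputable def bcut {V B : Type} [Fintype B] (be : B → V × V) (x : B → ℕ) (X : V → Prop) : ℕ :=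
  ∑ b, if (X (be b).1 ↔ X (be b).2) then 0 else x b

theorem ecut_fat {V B : Type} [Fintype B] (be : B → V × V) (mu : B → ℕ)
    (A : Set (Σ b, Fin (mu b))) (X : V → Prop) :
    ecut (fun e : Σ b, Fin (mu b) => be e.1) A X =
      bcut be (fun b => (Finset.univ.filter fun c : Fin (mu b) =>
        (⟨b, c⟩ : Σ b, Fin (mu b)) ∈ A).card) X := by
  unfold ecut bcut
  rw [Finset.card_filter, Fintype.sum_sigma]
  refine Finset.sum_congr rfl fun b _ => ?_
  by_cases h : (X (be b).1 ↔ X (be b).2)
  · simp [h]
  · simp only [h, not_false_eq_true, and_true, if_false]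
    rw [Finset.card_filter]

theorem fat {V B : Type} [Finite V] [Nonempty V] [Fintype B] (be : B → V × V) (mu : B → ℕ) (k : ℕ)
    (hcut : ∀ X : V → Prop, (∃ v, X v) → (∃ v, ¬ X v) → k ≤ bcut be mu X)
    {r : ℕ} (ks : Fin r → ℕ) (hA : Arrow k ks) :
    ∃ x : Fin r → B → ℕ, (∀ b, ∑ i, x i b = mu b) ∧
      ∀ i, ∀ X : V → Prop, (∃ v, X v) → (∃ v, ¬ X v) → ks i ≤ bcut be (x i) X := by
  obtain ⟨f, hf⟩ := hA V (Σ b, Fin (mu b)) (fun e => be e.1) (by
    refine cut_ec _ _ _ fun X h1 h2 => ?_
    rw [ecut_fat]
    simpa using hcut X h1 h2)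
  refine ⟨fun i b => (Finset.univ.filter fun c : Fin (mu b) => f ⟨b, c⟩ = i).card, ?_, ?_⟩
  · intro b
    have := Finset.card_eq_sum_card_fiberwise (s := (Finset.univ : Finset (Fin (mu b))))
      (t := (Finset.univ : Finset (Fin r))) (f := fun c => f ⟨b, c⟩) (by intro c _; simp)
    simpa using this.symm
  · intro i X h1 h2
    have h3 := ec_cut _ _ _ (hf i) X h1 h2
    rw [ecut_fat] at h3
    simpa using h3

theorem bcut_le {V B : Type} [Fintype B] (be : B → V × V) (x : B → ℕ) (X : V → Prop)
    (F : Finset B) (h : ∀ b, ¬ (X (be b).1 ↔ X (be b).2) → b ∈ F) :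
    bcut be x X ≤ ∑ b ∈ F, x b := by
  unfold bcut
  calc ∑ b, (if (X (be b).1 ↔ X (be b).2) then 0 else x b)
      ≤ ∑ b, (if b ∈ F then x b else 0) := by
        refine Finset.sum_le_sum fun b _ => ?_
        by_cases hb : (X (be b).1 ↔ X (be b).2)
        · simp [hb]
        · simp [hb, h b hb]
    _ = ∑ b ∈ F, x b := by simp

theorem sum_ins {B : Type} (x : B → ℕ) (a : B) (F : Finset B) :
    ∑ b ∈ insert a F, x b ≤ x a + ∑ b ∈ F, x b := by
  by_cases h : a ∈ F
  · rw [Finset.insert_eq_of_mem h]; omega
  · rw [Finset.sum_insert h]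

/-! ### Walks -/

theorem walk {n : ℕ} (f : Fin (n + 1) → ℤ) (G : Fin n → ℤ) (p : ℤ) (hp : 0 ≤ p)
    (hG : ∀ i : Fin n, p * |f i.castSucc - f i.succ| ≤ G i) :
    p * |f 0 - f (Fin.last n)| ≤ ∑ i, G i := by
  induction n with
  | zero => simp
  | succ n ih =>
    rw [Fin.sum_univ_castSucc]
    have h1 := ih (fun i => f i.castSucc) (fun i => G i.castSucc) (fun i => hG i.castSucc)
    have h2 := hG (Fin.last n)
    have h3 : |f 0 - f (Fin.last (n + 1))| ≤ |f 0 - f (Fin.last n).castSucc| +
        |f (Fin.last n).castSucc - f (Fin.last n).succ| := by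
      have := abs_sub_le (f 0) (f (Fin.last n).castSucc) (f (Fin.last (n + 1)))
      simpa using this
    have h4 := mul_le_mul_of_nonneg_left h3 hp
    simp only [Fin.castSucc_zero] at h1
    linarith

theorem walk_mid {n : ℕ} (f : Fin (n + 1) → ℤ) (G : Fin n → ℤ) (p : ℤ) (hp : 0 ≤ p)
    (hG : ∀ i : Fin n, p * |f i.castSucc - f i.succ| ≤ G i) (l : Fin (n + 1)) :
    p * (|f 0 - f l| + |f l - f (Fin.last n)|) ≤ ∑ i, G i := by
  induction n with
  | zero => fin_cases l; simp
  | succ n ih =>
    induction l using Fin.lastCases with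
    | last => simpa using walk f G p hp hG
    | cast l =>
      rw [Fin.sum_univ_castSucc]
      have h1 := ih (fun i => f i.castSucc) (fun i => G i.castSucc) (fun i => hG i.castSucc) l
      have h2 := hG (Fin.last n)
      have h3 : |f l.castSucc - f (Fin.last (n + 1))| ≤
          |f l.castSucc - f (Fin.last n).castSucc| +
          |f (Fin.last n).castSucc - f (Fin.last n).succ| := by
        have := abs_sub_le (f l.castSucc) (f (Fin.last n).castSucc) (f (Fin.last (n + 1)))
        simpa using this
      have h4 := mul_le_mul_of_nonneg_left h3 hp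
      simp only [Fin.castSucc_zero] at h1
      rw [mul_add] at h1 ⊢
      linarith

theorem walk_in {n : ℕ} (f : Fin (n + 1) → ℤ) (G : Fin n → ℤ) (p : ℤ) (hp : 0 ≤ p)
    (hG : ∀ i : Fin n, p * |f i.castSucc - f i.succ| ≤ G i) (g : Fin n) (w : ℤ)
    (hw : p * (|f g.castSucc - w| + |w - f g.succ|) ≤ G g) :
    p * (|f 0 - w| + |w - f (Fin.last n)|) ≤ ∑ i, G i := by
  induction n with
  | zero => exact g.elim0
  | succ n ih =>
    rw [Fin.sum_univ_castSucc]
    induction g using Fin.lastCases with
    | last =>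
      have h1 := walk (fun i => f i.castSucc) (fun i => G i.castSucc) p hp
        (fun i => hG i.castSucc)
      simp only [Fin.castSucc_zero, Fin.succ_last] at h1 hw
      have h3 := mul_le_mul_of_nonneg_left (abs_sub_le (f 0) (f (Fin.last n).castSucc) w) hp
      rw [mul_add] at hw h3 ⊢
      linarith
    | cast g =>
      have h1 := ih (fun i => f i.castSucc) (fun i => G i.castSucc) (fun i => hG i.castSucc) g
        (by simpa using hw)
      have h2 := hG (Fin.last n)
      simp only [Fin.castSucc_zero] at h1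
      have h3 : |w - f (Fin.last (n + 1))| ≤ |w - f (Fin.last n).castSucc| +
          |f (Fin.last n).castSucc - f (Fin.last n).succ| := by
        have := abs_sub_le w (f (Fin.last n).castSucc) (f (Fin.last (n + 1)))
        simpa using this
      have h4 := mul_le_mul_of_nonneg_left h3 hp
      rw [mul_add] at h1 ⊢
      linarith

end Pool.Agent.H63.Arr
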