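import Pool.Agent.H63.Arr.Eq

/-!
The excess of `f` over the sum of the parts is linear in the number of parts.
-/

set_option autoImplicit false

namespace Pool.Agent.H63.Arr

open Pool.Agent.Helper243Arrow
open Classical

variable {h : ℕ}

theorem bcut_close (G : Gad h) (x : G.E ⊕ (Fin h ⊕ Fin h) → ℕ) (X : Option G.V → Prop)
    (hX : ¬ X none) :
    bcut (closeEnds G) x X =
      G.cut (fun e => x (.inl e)) (fun d => x (.inr d)) (fun v => X (some v)) := by
  unfold bcut Gad.cut
  rw [Fintype.sum_sum_type]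
  congr 1
  apply Finset.sum_congr rfl
  intro d _
  by_cases h1 : X (some (G.att d))
  · simp [closeEnds, hX, h1]
  · simp [closeEnds, hX, h1]

theorem bcut_compl {V B : Type} [Fintype B] (be : B → V × V) (x : B → ℕ) (X : V → Prop) :
    bcut be x (fun v => ¬ X v) = bcut be x X := by
  unfold bcut
  refine Finset.sum_congr rfl fun b _ => ?_
  by_cases h1 : X (be b).1 <;> by_cases h2 : X (be b).2 <;> simp [h1, h2]

theorem cut_const (G : Gad h) (m : ℕ) (X : G.V → Prop) :
    G.cut (fun _ => m) (fun _ => m) X = m * G.cut (fun _ => 1) (fun _ => 1) X := by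
  unfold Gad.cut
  rw [mul_add, Finset.mul_sum, Finset.mul_sum]
  congr 1
  · refine Finset.sum_congr rfl fun e _ => ?_
    split_ifs <;> simp
  · refine Finset.sum_congr rfl fun e _ => ?_
    split_ifs <;> simp

theorem close_cut (G : Gad h) (hG : G.Conn) (m : ℕ) (X : Option G.V → Prop) (h1 : ∃ v, X v)
    (h2 : ∃ v, ¬ X v) : 2 * h * m ≤ bcut (closeEnds G) (fun _ => m) X := by
  have key : ∀ Y : Option G.V → Prop, ¬ Y none → (∃ v, Y v) →
      2 * h * m ≤ bcut (closeEnds G) (fun _ => m) Y := by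
    intro Y hY hex
    rw [bcut_close G _ Y hY, cut_const, mul_comm]
    refine Nat.mul_le_mul_left m (hG _ ?_)
    obtain ⟨v, hv⟩ := hex
    cases v with
    | none => exact absurd hv hY
    | some v => exact ⟨v, hv⟩
  by_cases hX : X none
  · rw [← bcut_compl]
    exact key _ (by simpa using hX) h2
  · exact key X hX h1

/-- Linear excess, for multiples of `2h`. -/
theorem lin (hh : 1 ≤ h) : ∃ F : ℕ, ∀ (r : ℕ) (ks : Fin r → ℕ) (m : ℕ),
    Arrow (2 * h * m) ks →
      F * ∑ i, ks i + (Finset.univ.filter fun i => ¬ 2 * h ∣ ks i).card ≤ F * (2 * h * m) := by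
  obtain ⟨G, ⟨hC, _⟩, hdiv⟩ := exists_div hh
  let S : Finset (G.V → Prop) := Finset.univ.filter fun X =>
    (∃ v, X v) ∧ G.cut (fun _ => 1) (fun _ => 1) X = 2 * h
  refine ⟨S.card, ?_⟩
  intro r ks m hA
  obtain ⟨x, hx1, hx2⟩ := fat (closeEnds G) (fun _ => m) (2 * h * m)
    (fun X h1 h2 => close_cut G hC m X h1 h2) ks hA
  let c : Fin r → (G.V → Prop) → ℕ := fun i X =>
    G.cut (fun e => x i (.inl e)) (fun d => x i (.inr d)) X
  have hc1 : ∀ i X, (∃ v, X v) → ks i ≤ c i X := by
    intro i X hX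
    have h1 := hx2 i (fun v => match v with
      | none => False
      | some v => X v) (by
        obtain ⟨v, hv⟩ := hX
        exact ⟨some v, hv⟩) ⟨none, fun h => h⟩
    rw [bcut_close G _ _ (fun h => h)] at h1
    exact h1
  have hc2 : ∀ X, ∑ i, c i X = G.cut (fun _ => m) (fun _ => m) X := by
    intro X
    show ∑ i, G.cut (fun e => x i (.inl e)) (fun d => x i (.inr d)) X = _
    unfold Gad.cut
    rw [Finset.sum_add_distrib, Finset.sum_comm, Finset.sum_comm (s := Finset.univ)
      (t := (Finset.univ : Finset (Fin h ⊕ Fin h)))]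
    congr 1
    · refine Finset.sum_congr rfl fun e _ => ?_
      split_ifs
      · simp
      · exact hx1 _
    · refine Finset.sum_congr rfl fun e _ => ?_
      split_ifs
      · exact hx1 _
      · simp
  have hsum : ∑ i, ∑ X ∈ S, c i X = S.card * (2 * h * m) := by
    rw [Finset.sum_comm]
    rw [Finset.sum_congr rfl fun X hX => ?_, Finset.sum_const, smul_eq_mul]
    rw [hc2, cut_const, (Finset.mem_filter.mp hX).2.2, mul_comm]
  have hone : ∀ i, S.card * ks i + (if ¬ 2 * h ∣ ks i then 1 else 0) ≤ ∑ X ∈ S, c i X := by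
    intro i
    have hle : ∀ X ∈ S, ks i ≤ c i X := fun X hX => hc1 i X (Finset.mem_filter.mp hX).2.1
    by_cases hd : 2 * h ∣ ks i
    · simp only [hd, not_true_eq_false, if_false, add_zero]
      rw [← smul_eq_mul, ← Finset.sum_const]
      exact Finset.sum_le_sum hle
    · simp only [hd, not_false_eq_true, if_true]
      have hex : ∃ X ∈ S, ks i < c i X := by
        by_contra hcon
        push Not at hcon
        apply hd
        refine hdiv (ks i) (fun e => x i (.inl e)) (fun d => x i (.inr d)) ?_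
        intro X hX h1
        have hXS : X ∈ S := by
          simp only [S, Finset.mem_filter, Finset.mem_univ, true_and]
          exact ⟨hX, h1⟩
        exact le_antisymm (hcon X hXS) (hle X hXS)
      have h1 : ∑ X ∈ S, ks i < ∑ X ∈ S, c i X := by
        obtain ⟨X, hX, hlt⟩ := hex
        exact Finset.sum_lt_sum hle ⟨X, hX, hlt⟩
      rw [Finset.sum_const, smul_eq_mul] at h1
      omega
  have hfin : ∑ i, (S.card * ks i + (if ¬ 2 * h ∣ ks i then 1 else 0)) ≤
      ∑ i, ∑ X ∈ S, c i X := Finset.sum_le_sum fun i _ => hone i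
  rw [Finset.sum_add_distrib, ← Finset.mul_sum, hsum, ← Finset.card_filter] at hfin
  exact hfin

/-- Linear excess for all `k`. -/
theorem lin_all (D : ℕ) (hD : 1 ≤ D) : ∃ F : ℕ, 1 ≤ F ∧ ∀ (r : ℕ) (ks : Fin r → ℕ) (k : ℕ),
    Arrow k ks →
      F * ∑ i, ks i + (Finset.univ.filter fun i => ¬ 2 * D ∣ ks i).card ≤
        F * (k + (2 * D - 1)) := by
  obtain ⟨F, hF⟩ := lin hD
  refine ⟨F + 1, by omega, ?_⟩
  intro r ks k hk
  obtain ⟨m, hm1, hm2⟩ : ∃ m, k ≤ 2 * D * m ∧ 2 * D * m ≤ k + (2 * D - 1) := by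
    refine ⟨(k + (2 * D - 1)) / (2 * D), ?_, Nat.mul_div_le _ _⟩
    have h1 := Nat.lt_mul_div_succ (k + (2 * D - 1)) (show 0 < 2 * D by omega)
    rw [Nat.mul_add] at h1
    omega
  have hA := arrow_mono hm1 ks hk
  have h1 := hF r ks m hA
  -- the trivial bound
  have h2 : ∑ i, ks i ≤ 2 * D * m := by
    obtain ⟨x, hx1, hx2⟩ := fat (fun _ : Unit => ((false : Bool), true)) (fun _ => 2 * D * m)
      (2 * D * m) (by
        intro X h1 h2
        unfold bcut
        by_cases ha : X false <;> by_cases hb : X true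
        · exfalso
          obtain ⟨v, hv⟩ := h2
          cases v <;> contradiction
        · simp [ha, hb]
        · simp [ha, hb]
        · exfalso
          obtain ⟨v, hv⟩ := h1
          cases v <;> contradiction) ks hA
    have h3 : ∀ i, ks i ≤ x i () := by
      intro i
      have := hx2 i (fun b => b = true) ⟨true, rfl⟩ ⟨false, by simp⟩
      simpa [bcut] using this
    calc ∑ i, ks i ≤ ∑ i, x i () := Finset.sum_le_sum fun i _ => h3 i
      _ = 2 * D * m := hx1 ()
  have h3 := Nat.mul_le_mul_left (F + 1) hm2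
  nlinarith

end Pool.Agent.H63.Arr
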