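import Pool.Agent.H63.Arr.Tree

/-!
Linear excess, parts equal to one counted twice.
-/

set_option autoImplicit false

namespace Pool.Agent.H63.Arr

open Pool.Agent.Helper243Arrow
open Classical

variable {h : ℕ}

/-- Chain of `n` copies of a gadget. -/
def chn (G : Gad h) : ℕ → Gad h
  | 0 => vert h
  | n + 1 => comp G (chn G n)

theorem conn_chn (G : Gad h) (hG : G.Conn) : ∀ n, (chn G n).Conn
  | 0 => conn_vert h
  | n + 1 => conn_comp _ _ hG (conn_chn G hG n)

/-- The weight of the part of a class in the first gadget. -/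
def wL (G C : Gad h) (w : (comp G C).E → ℕ) : G.E → ℕ := fun e => w (.inl e)

def sL (G C : Gad h) (w : (comp G C).E → ℕ) (s : Fin h ⊕ Fin h → ℕ) : Fin h ⊕ Fin h → ℕ :=
  Sum.elim (fun i => s (.inl i)) (fun i => w (.inr (.inr i)))

def wR (G C : Gad h) (w : (comp G C).E → ℕ) : C.E → ℕ := fun e => w (.inr (.inl e))

def sR (G C : Gad h) (w : (comp G C).E → ℕ) (s : Fin h ⊕ Fin h → ℕ) : Fin h ⊕ Fin h → ℕ :=
  Sum.elim (fun i => w (.inr (.inr i))) (fun i => s (.inr i))

/-- Number of copies in which the class has not exactly `κ` edges in the boundary of `X`. -/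
noncomputable def bad (G : Gad h) (κ : ℕ) (X : G.V → Prop) :
    (n : ℕ) → ((chn G n).E → ℕ) → (Fin h ⊕ Fin h → ℕ) → ℕ
  | 0, _, _ => 0
  | n + 1, w, s => (if G.cut (wL G (chn G n) w) (sL G (chn G n) w s) X = κ then 0 else 1) +
      bad G κ X n (wR G (chn G n) w) (sR G (chn G n) w s)

/-- The tight sets of a gadget. -/
noncomputable def tights (G : Gad h) : Finset (G.V → Prop) :=
  Finset.univ.filter fun X => (∃ v, X v) ∧ G.cut (fun _ => 1) (fun _ => 1) X = 2 * h

theorem sum_bad (G : Gad h) (hdiv : ∀ (κ : ℕ) (w : G.E → ℕ) (s : Fin h ⊕ Fin h → ℕ),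
    Tight κ G w s → 2 * h ∣ κ) (κ : ℕ) (hκ : ¬ 2 * h ∣ κ) : ∀ (n : ℕ) (w : (chn G n).E → ℕ)
    (s : Fin h ⊕ Fin h → ℕ), n ≤ ∑ X ∈ tights G, bad G κ X n w s := by
  intro n
  induction n with
  | zero => intro w s; exact Nat.zero_le _
  | succ n ih =>
    intro w s
    have h1 := ih (wR G (chn G n) w) (sR G (chn G n) w s)
    have h2 : 1 ≤ ∑ X ∈ tights G,
        (if G.cut (wL G (chn G n) w) (sL G (chn G n) w s) X = κ then 0 else 1) := by
      by_contra hcon
      have h3 : ∑ X ∈ tights G,
        (if G.cut (wL G (chn G n) w) (sL G (chn G n) w s) X = κ then 0 else 1) = 0 := by omega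
      rw [Finset.sum_eq_zero_iff] at h3
      apply hκ
      refine hdiv κ (wL G (chn G n) w) (sL G (chn G n) w s) ?_
      intro X hX hX1
      have h4 := h3 X (by
        simp only [tights, Finset.mem_filter, Finset.mem_univ, true_and]
        exact ⟨hX, hX1⟩)
      by_contra hne
      rw [if_neg hne] at h4
      omega
    simp only [bad, Finset.sum_add_distrib]
    omega

theorem part_chn (G : Gad h) (hG : RegG G) (X : G.V → Prop) (hXne : ∃ v, X v)
    (hX1 : G.cut (fun _ => 1) (fun _ => 1) X = 2 * h) : ∀ n : ℕ,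
    ∃ (ι : Type) (_ : Fintype ι) (π : (chn G n).V → ι), Function.Surjective π ∧
      (∀ p, (chn G n).cut (fun _ => 1) (fun _ => 1) (fun v => π v = p) = 2 * h) ∧
      n ≤ Fintype.card ι ∧ Fintype.card ι ≤ n * (Fintype.card G.V + 1) + 1 ∧
      ∀ (κ : ℕ) (w : (chn G n).E → ℕ) (s : Fin h ⊕ Fin h → ℕ),
        (∀ Y : (chn G n).V → Prop, (∃ v, Y v) → κ ≤ (chn G n).cut w s Y) →
        κ * Fintype.card ι + bad G κ X n w s ≤
          ∑ p, (chn G n).cut w s (fun v => π v = p) := by
  intro n
  induction n with
  | zero =>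
    refine ⟨Unit, inferInstance, fun _ => (), fun _ => ⟨(), rfl⟩, ?_, by simp, by simp, ?_⟩
    · intro p
      have h1 : (fun _ : (vert h).V => () = p) = fun _ => True := by
        funext v
        simp
      show (vert h).cut (fun _ => 1) (fun _ => 1) (fun _ => () = p) = 2 * h
      rw [h1, cut_all]
      simp
      omega
    · intro κ w s hcut
      have h1 := hcut (fun _ => True) ⟨(), trivial⟩
      simpa [bad] using h1
  | succ n ih =>
    obtain ⟨ι, hι, π, hπ, ht, hlo, hup, hs⟩ := ih
    let πD : G.V → Option {v : G.V // ¬ X v} := fun v => if hv : X v then none else some ⟨v, hv⟩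
    have hb0 : (fun v => πD v = none) = X := by
      funext v
      by_cases hv : X v <;> simp [πD, hv]
    have hb1 : ∀ u : {v : G.V // ¬ X v}, (fun v => πD v = some u) = (fun v => v = u.1) := by
      intro u
      funext v
      by_cases hv : X v
      · have h1 : v ≠ u.1 := fun h => u.2 (h ▸ hv)
        simp [πD, hv, h1]
      · simp only [πD, hv, dif_neg, not_false_eq_true, Option.some.injEq, eq_iff_iff]
        exact ⟨fun h => congrArg Subtype.val h, fun h => Subtype.ext h⟩
    have hsurjD : Function.Surjective πD := by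
      intro p
      cases p with
      | none =>
        obtain ⟨v, hv⟩ := hXne
        exact ⟨v, by simp [πD, hv]⟩
      | some u => exact ⟨u.1, by simp [πD, u.2]⟩
    have htD : ∀ p, G.cut (fun _ => 1) (fun _ => 1) (fun v => πD v = p) = 2 * h := by
      intro p
      cases p with
      | none => rw [hb0]; exact hX1
      | some u => rw [hb1]; exact hG u.1
    have hcardD : Fintype.card {v : G.V // ¬ X v} ≤ Fintype.card G.V :=
      Fintype.card_subtype_le _
    have hl : ∀ p, (fun v : (comp G (chn G n)).V => Sum.map πD π v = Sum.inl p) =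
        Sum.elim (fun v => πD v = p) (fun _ => False) := by
      intro p
      funext v
      rcases v with v | v <;> simp
    have hr : ∀ p, (fun v : (comp G (chn G n)).V => Sum.map πD π v = Sum.inr p) =
        Sum.elim (fun _ => False) (fun v => π v = p) := by
      intro p
      funext v
      rcases v with v | v <;> simp
    refine ⟨Option {v : G.V // ¬ X v} ⊕ ι, inferInstance, Sum.map πD π,
      Sum.map_surjective.mpr ⟨hsurjD, hπ⟩, ?_, ?_, ?_, ?_⟩
    · show ∀ p, (comp G (chn G n)).cut (fun _ => 1) (fun _ => 1)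
        (fun v => Sum.map πD π v = p) = 2 * h
      rintro (p | p)
      · rw [hl, cut_comp_left, elim_one]
        exact htD p
      · rw [hr, cut_comp_right, elim_one]
        exact ht p
    · rw [Fintype.card_sum, Fintype.card_option]
      omega
    · rw [Fintype.card_sum, Fintype.card_option, Nat.succ_mul]
      omega
    · intro κ w s hcut
      have hcD : ∀ Y : G.V → Prop, (∃ v, Y v) →
          κ ≤ G.cut (wL G (chn G n) w) (sL G (chn G n) w s) Y := by
        intro Y hY
        obtain ⟨v, hv⟩ := hY
        have h1 := hcut (Sum.elim Y (fun _ => False)) ⟨Sum.inl v, hv⟩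
        have h2 := cut_comp_left G (chn G n) w s Y
        exact le_of_le_of_eq h1 h2
      have hcC : ∀ Y : (chn G n).V → Prop, (∃ v, Y v) →
          κ ≤ (chn G n).cut (wR G (chn G n) w) (sR G (chn G n) w s) Y := by
        intro Y hY
        obtain ⟨v, hv⟩ := hY
        have h1 := hcut (Sum.elim (fun _ => False) Y) ⟨Sum.inr v, hv⟩
        have h2 := cut_comp_right G (chn G n) w s Y
        exact le_of_le_of_eq h1 h2
      have h3 := hs κ _ _ hcC
      have h4 : κ * Fintype.card (Option {v : G.V // ¬ X v}) +
          (if G.cut (wL G (chn G n) w) (sL G (chn G n) w s) X = κ then 0 else 1) ≤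
          ∑ p, G.cut (wL G (chn G n) w) (sL G (chn G n) w s) (fun v => πD v = p) := by
        rw [Fintype.sum_option, hb0, Fintype.card_option]
        have h1 : ∑ _u : {v : G.V // ¬ X v}, κ ≤
            ∑ u, G.cut (wL G (chn G n) w) (sL G (chn G n) w s) (fun v => πD v = some u) := by
          refine Finset.sum_le_sum fun u _ => ?_
          rw [hb1]
          exact hcD _ ⟨u.1, rfl⟩
        rw [Finset.sum_const, Finset.card_univ, smul_eq_mul] at h1
        have h5 := hcD X hXne
        rw [mul_add, mul_one, mul_comm]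
        split_ifs <;> omega
      show κ * Fintype.card (Option {v : G.V // ¬ X v} ⊕ ι) +
        ((if G.cut (wL G (chn G n) w) (sL G (chn G n) w s) X = κ then 0 else 1) +
          bad G κ X n (wR G (chn G n) w) (sR G (chn G n) w s)) ≤
        ∑ p, (comp G (chn G n)).cut w s (fun v => Sum.map πD π v = p)
      rw [Fintype.sum_sum_type, Fintype.card_sum]
      have h6 : ∀ p, (comp G (chn G n)).cut w s (fun v => Sum.map πD π v = Sum.inl p) =
          G.cut (wL G (chn G n) w) (sL G (chn G n) w s) (fun v => πD v = p) := by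
        intro p
        rw [hl, cut_comp_left]
        rfl
      have h7 : ∀ p, (comp G (chn G n)).cut w s (fun v => Sum.map πD π v = Sum.inr p) =
          (chn G n).cut (wR G (chn G n) w) (sR G (chn G n) w s) (fun v => π v = p) := by
        intro p
        rw [hr, cut_comp_right]
        rfl
      rw [Finset.sum_congr rfl fun p _ => h6 p, Finset.sum_congr rfl fun p _ => h7 p, mul_add]
      omega

end Pool.Agent.H63.Arr
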