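import Pool.Agent.H63.Arr.Lin2

/-!
Linear excess, parts equal to one counted twice: assembly.
-/

set_option autoImplicit false

namespace Pool.Agent.H63.Arr

open Pool.Agent.Helper243Arrow
open Classical

variable {h : ℕ}

/-- The inequality given by one partition. -/
theorem part_ineq (C : Gad h) (m : ℕ) {r : ℕ} (ks : Fin r → ℕ)
    (x : Fin r → C.E ⊕ (Fin h ⊕ Fin h) → ℕ) (hx1 : ∀ b, ∑ i, x i b = m)
    (hx2 : ∀ i, ∀ X : Option C.V → Prop, (∃ v, X v) → (∃ v, ¬ X v) →
      ks i ≤ bcut (closeEnds C) (x i) X)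
    (ι : Type) [Fintype ι] [Nonempty ι] (π : C.V → ι) (hπ : Function.Surjective π)
    (ht : ∀ p, C.cut (fun _ => 1) (fun _ => 1) (fun v => π v = p) = 2 * h)
    (B : Fin r → ℕ)
    (hB : ∀ i, ks i * Fintype.card ι + B i ≤
      ∑ p, C.cut (fun e => x i (.inl e)) (fun d => x i (.inr d)) (fun v => π v = p)) :
    (∑ i, (ks i + if ks i = 1 then 1 else 0)) * (Fintype.card ι + 1) +
      ∑ i, (if ks i = 1 then 0 else B i) ≤
      2 * h * m * (Fintype.card ι + 1) + 2 * ∑ i, (if ks i = 1 then 1 else 0) := by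
  set n := Fintype.card ι with hn
  have hblk : ∀ (y : C.E ⊕ (Fin h ⊕ Fin h) → ℕ) (p : ι),
      bcut (closeEnds C) y (fun v => Option.map π v = some p) =
        C.cut (fun e => y (.inl e)) (fun d => y (.inr d)) (fun v => π v = p) := by
    intro y p
    rw [bcut_close C y _ (by simp)]
    congr 1
    funext v
    simp
  obtain ⟨p0⟩ := ‹Nonempty ι›
  obtain ⟨v0, hv0⟩ := hπ p0
  have hnone : ∀ i, ks i ≤ bcut (closeEnds C) (x i) (fun v => Option.map π v = none) := by
    intro i
    exact hx2 i _ ⟨none, rfl⟩ ⟨some v0, by simp⟩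
  have hπo : Function.Surjective (Option.map π) := by
    intro p
    cases p with
    | none => exact ⟨none, rfl⟩
    | some p =>
      obtain ⟨v, hv⟩ := hπ p
      exact ⟨some v, by simp [hv]⟩
  have hS : ∀ i, ∑ p : Option ι, bcut (closeEnds C) (x i) (fun v => Option.map π v = p) =
      bcut (closeEnds C) (x i) (fun v => Option.map π v = none) +
      ∑ p, C.cut (fun e => x i (.inl e)) (fun d => x i (.inr d)) (fun v => π v = p) := by
    intro i
    rw [Fintype.sum_option, Finset.sum_congr rfl fun p _ => hblk (x i) p]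
  have hlow : ∀ i, (ks i + if ks i = 1 then 1 else 0) * (n + 1) +
      (if ks i = 1 then 0 else B i) ≤
      ∑ p : Option ι, bcut (closeEnds C) (x i) (fun v => Option.map π v = p) +
        2 * (if ks i = 1 then 1 else 0) := by
    intro i
    by_cases h1 : ks i = 1
    · have h2 := conn_part (closeEnds C) (x i) (fun X hX1 hX2 => by
        have := hx2 i X hX1 hX2
        rw [h1] at this
        exact this) (Option.map π) hπo
      rw [sum_blocks]
      rw [Fintype.card_option] at h2
      simp only [h1, if_true]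
      omega
    · have h3 := hB i
      have h5 := hnone i
      rw [hS i]
      simp only [h1, if_false, add_zero, mul_zero]
      rw [mul_add, mul_one]
      omega
  have htot : ∑ i, ∑ p : Option ι, bcut (closeEnds C) (x i) (fun v => Option.map π v = p) =
      2 * h * m * (n + 1) := by
    rw [Finset.sum_comm]
    have h1 : ∀ X : Option C.V → Prop, ∑ i, bcut (closeEnds C) (x i) X =
        bcut (closeEnds C) (fun _ => m) X := by
      intro X
      unfold bcut
      rw [Finset.sum_comm]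
      refine Finset.sum_congr rfl fun b _ => ?_
      split_ifs
      · simp
      · exact hx1 b
    rw [Finset.sum_congr rfl fun p _ => h1 _, Fintype.sum_option]
    have h2 : bcut (closeEnds C) (fun _ => m) (fun v => Option.map π v = none) = 2 * h * m := by
      have h3 : (fun v : Option C.V => Option.map π v = none) =
          (fun v => ¬ (fun v : Option C.V => v ≠ none) v) := by
        funext v
        cases v <;> simp
      rw [h3, bcut_compl, bcut_close C _ _ (by simp)]
      have h4 : (fun v : C.V => (some v : Option C.V) ≠ none) = fun _ => True := by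
        funext v
        simp
      rw [h4, cut_all]
      simp
      ring
    have h5 : ∀ p : ι, bcut (closeEnds C) (fun _ => m) (fun v => Option.map π v = some p) =
        2 * h * m := by
      intro p
      rw [hblk (fun _ => m) p, cut_const, ht p]
      ring
    rw [h2, Finset.sum_congr rfl fun p _ => h5 p]
    rw [Finset.sum_const, Finset.card_univ, smul_eq_mul]
    ring
  have hfin : ∑ i, ((ks i + if ks i = 1 then 1 else 0) * (n + 1) +
      (if ks i = 1 then 0 else B i)) ≤
      ∑ i, (∑ p : Option ι, bcut (closeEnds C) (x i) (fun v => Option.map π v = p) +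
        2 * (if ks i = 1 then 1 else 0)) := Finset.sum_le_sum fun i _ => hlow i
  have hR : ∑ i, (∑ p : Option ι, bcut (closeEnds C) (x i) (fun v => Option.map π v = p) +
        2 * (if ks i = 1 then 1 else 0)) =
        2 * h * m * (n + 1) + 2 * ∑ i, (if ks i = 1 then 1 else 0) := by
    rw [Finset.sum_add_distrib, htot, ← Finset.mul_sum]
  have hL : ∑ i, ((ks i + if ks i = 1 then 1 else 0) * (n + 1) +
      (if ks i = 1 then 0 else B i)) =
      (∑ i, (ks i + if ks i = 1 then 1 else 0)) * (n + 1) +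
        ∑ i, (if ks i = 1 then 0 else B i) := by
    rw [Finset.sum_add_distrib, ← Finset.sum_mul]
  rw [hR, hL] at hfin
  exact hfin

theorem final_arith (s g m' Sg a t Y N : ℕ) (h0 : 1 ≤ s) (hY1 : s * (N + 1) ≤ Y)
    (hY2 : Y ≤ s * (N * (g + 1) + 2)) (hmain : Sg * Y + N * t ≤ m' * Y + 2 * a * s)
    (hN : N = 2 * s * (m' + a) + 2 * a + 1) :
    s * (g + 1) * Sg + t ≤ s * (g + 1) * m' := by
  by_contra hcon
  push Not at hcon
  rcases Nat.lt_or_ge m' Sg with h1 | h1
  · -- too many
    have h2 : (m' + 1) * Y ≤ Sg * Y := Nat.mul_le_mul_right Y h1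
    have h3 : Y ≤ 2 * a * s := by nlinarith
    have h4 : s * (N + 1) ≤ s * (2 * a) := by nlinarith
    have h5 := Nat.le_of_mul_le_mul_left h4 h0
    omega
  · obtain ⟨δ, hδ⟩ : ∃ δ, m' = Sg + δ := ⟨m' - Sg, by omega⟩
    have h2 : N * t ≤ δ * Y + 2 * a * s := by
      rw [hδ] at hmain
      nlinarith
    have h3 : δ * Y ≤ δ * (s * (N * (g + 1) + 2)) := Nat.mul_le_mul_left δ hY2
    have h4 : s * (g + 1) * δ + 1 ≤ t := by
      rw [hδ] at hcon
      nlinarith
    have h5 : N * (s * (g + 1) * δ + 1) ≤ N * t := Nat.mul_le_mul_left N h4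
    have h6 : N ≤ 2 * s * (δ + a) := by nlinarith
    have h7 : 2 * s * (δ + a) ≤ 2 * s * (m' + a) := Nat.mul_le_mul_left _ (by omega)
    omega

theorem lin2 (hh : 1 ≤ h) : ∃ F : ℕ, 1 ≤ F ∧ ∀ (r : ℕ) (ks : Fin r → ℕ) (m : ℕ),
    Arrow (2 * h * m) ks →
      F * ∑ i, (ks i + if ks i = 1 then 1 else 0) +
        ∑ i, (if 2 ≤ ks i ∧ ¬ 2 * h ∣ ks i then 1 else 0) ≤ F * (2 * h * m) := by
  obtain ⟨G, ⟨hC, hReg⟩, hdiv⟩ := exists_div hh
  have hS1 : 1 ≤ (tights G).card := by
    by_contra hcon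
    have h1 : tights G = ∅ := Finset.card_eq_zero.mp (by omega)
    have h2 : 2 * h ∣ 1 := by
      refine hdiv 1 (fun _ => 0) (fun _ => 0) ?_
      intro X hX hX1
      exfalso
      have : X ∈ tights G := by
        simp only [tights, Finset.mem_filter, Finset.mem_univ, true_and]
        exact ⟨hX, hX1⟩
      rw [h1] at this
      simp at this
    have := Nat.le_of_dvd (by omega) h2
    omega
  refine ⟨(tights G).card * (Fintype.card G.V + 1), Nat.mul_pos hS1 (by omega), ?_⟩
  intro r ks m hA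
  set a := ∑ i, (if ks i = 1 then 1 else 0) with ha
  obtain ⟨N, hN⟩ : ∃ N, N = 2 * (tights G).card * (2 * h * m + a) + 2 * a + 1 := ⟨_, rfl⟩
  obtain ⟨x, hx1, hx2⟩ := fat (closeEnds (chn G N)) (fun _ => m) (2 * h * m)
    (fun X h1 h2 => close_cut (chn G N) (conn_chn G hC N) m X h1 h2) ks hA
  have hxC : ∀ i, ∀ X : (chn G N).V → Prop, (∃ v, X v) →
      ks i ≤ (chn G N).cut (fun e => x i (.inl e)) (fun d => x i (.inr d)) X := by
    intro i X hX
    have h1 := hx2 i (fun v => match v with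
      | none => False
      | some v => X v) (by
        obtain ⟨v, hv⟩ := hX
        exact ⟨some v, hv⟩) ⟨none, fun h => h⟩
    rw [bcut_close (chn G N) _ _ (fun h => h)] at h1
    exact h1
  let B : Fin r → (G.V → Prop) → ℕ := fun i X =>
    bad G (ks i) X N (fun e => x i (.inl e)) (fun d => x i (.inr d))
  have hone : ∀ X : G.V → Prop, ∃ c : ℕ, X ∈ tights G → (N ≤ c ∧
      c ≤ N * (Fintype.card G.V + 1) + 1 ∧
      (∑ i, (ks i + if ks i = 1 then 1 else 0)) * (c + 1) +
        ∑ i, (if ks i = 1 then 0 else B i X) ≤ 2 * h * m * (c + 1) + 2 * a) := by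
    intro X
    by_cases hX : X ∈ tights G
    · have hX' := (Finset.mem_filter.mp hX).2
      obtain ⟨ι, hι, π, hπ, ht, hlo, hup, hs⟩ := part_chn G hReg X hX'.1 hX'.2 N
      have hNpos : 1 ≤ N := by omega
      have hne : Nonempty ι := Fintype.card_pos_iff.mp (by omega)
      refine ⟨Fintype.card ι, fun _ => ⟨hlo, hup, ?_⟩⟩
      exact part_ineq (chn G N) m ks x hx1 hx2 ι π hπ ht (fun i => B i X)
        (fun i => hs (ks i) _ _ (hxC i))
    · exact ⟨0, fun h => absurd h hX⟩
  choose c hc using hone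
  have hsum : ∑ X ∈ tights G, ((∑ i, (ks i + if ks i = 1 then 1 else 0)) * (c X + 1) +
        ∑ i, (if ks i = 1 then 0 else B i X)) ≤
      ∑ X ∈ tights G, (2 * h * m * (c X + 1) + 2 * a) :=
    Finset.sum_le_sum fun X hX => (hc X hX).2.2
  have hY1 : (tights G).card * (N + 1) ≤ ∑ X ∈ tights G, (c X + 1) := by
    have h1 : ∑ _X ∈ tights G, (N + 1) ≤ ∑ X ∈ tights G, (c X + 1) :=
      Finset.sum_le_sum fun X hX => by
        have := (hc X hX).1
        omega
    rwa [Finset.sum_const, smul_eq_mul] at h1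
  have hY2 : ∑ X ∈ tights G, (c X + 1) ≤
      (tights G).card * (N * (Fintype.card G.V + 1) + 2) := by
    have h1 : ∑ X ∈ tights G, (c X + 1) ≤
        ∑ _X ∈ tights G, (N * (Fintype.card G.V + 1) + 2) :=
      Finset.sum_le_sum fun X hX => by
        have := (hc X hX).2.1
        omega
    rwa [Finset.sum_const, smul_eq_mul] at h1
  have hbad : N * ∑ i, (if 2 ≤ ks i ∧ ¬ 2 * h ∣ ks i then 1 else 0) ≤
      ∑ X ∈ tights G, ∑ i, (if ks i = 1 then 0 else B i X) := by
    rw [Finset.sum_comm, Finset.mul_sum]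
    refine Finset.sum_le_sum fun i _ => ?_
    by_cases h1 : 2 ≤ ks i ∧ ¬ 2 * h ∣ ks i
    · rw [if_pos h1]
      have h2 : ks i ≠ 1 := by omega
      simp only [h2, if_false, mul_one]
      exact sum_bad G hdiv (ks i) h1.2 N _ _
    · rw [if_neg h1]
      simp
  have hsumL : ∑ X ∈ tights G, ((∑ i, (ks i + if ks i = 1 then 1 else 0)) * (c X + 1) +
        ∑ i, (if ks i = 1 then 0 else B i X)) =
      (∑ i, (ks i + if ks i = 1 then 1 else 0)) * (∑ X ∈ tights G, (c X + 1)) +
        ∑ X ∈ tights G, ∑ i, (if ks i = 1 then 0 else B i X) := by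
    rw [Finset.sum_add_distrib, ← Finset.mul_sum]
  have hsumR : ∑ X ∈ tights G, (2 * h * m * (c X + 1) + 2 * a) =
      2 * h * m * (∑ X ∈ tights G, (c X + 1)) + (tights G).card * (2 * a) := by
    rw [Finset.sum_add_distrib, ← Finset.mul_sum, Finset.sum_const, smul_eq_mul]
  rw [hsumL, hsumR] at hsum
  have hmain : (∑ i, (ks i + if ks i = 1 then 1 else 0)) * (∑ X ∈ tights G, (c X + 1)) +
      N * ∑ i, (if 2 ≤ ks i ∧ ¬ 2 * h ∣ ks i then 1 else 0) ≤
      2 * h * m * (∑ X ∈ tights G, (c X + 1)) + 2 * a * (tights G).card := by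
    rw [mul_comm (2 * a) (tights G).card]
    omega
  exact final_arith _ _ _ _ _ _ _ _ hS1 hY1 hY2 hmain hN

/-- Linear excess for all `k`. -/
theorem lin2_all (D : ℕ) (hD : 1 ≤ D) : ∃ F : ℕ, 1 ≤ F ∧
    ∀ (r : ℕ) (ks : Fin r → ℕ) (k : ℕ), Arrow k ks →
      F * (∑ i, ks i + (Finset.univ.filter fun i => ks i = 1).card) +
        (Finset.univ.filter fun i => 2 ≤ ks i ∧ ¬ 2 * D ∣ ks i).card ≤
        F * (k + (2 * D - 1)) := by
  obtain ⟨F, hF1, hF⟩ := lin2 hD
  refine ⟨F, hF1, ?_⟩
  intro r ks k hk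
  obtain ⟨m, hm1, hm2⟩ : ∃ m, k ≤ 2 * D * m ∧ 2 * D * m ≤ k + (2 * D - 1) := by
    refine ⟨(k + (2 * D - 1)) / (2 * D), ?_, Nat.mul_div_le _ _⟩
    have h1 := Nat.lt_mul_div_succ (k + (2 * D - 1)) (show 0 < 2 * D by omega)
    rw [Nat.mul_add] at h1
    omega
  have h1 := hF r ks m (arrow_mono hm1 ks hk)
  rw [Finset.sum_add_distrib] at h1
  rw [Finset.card_filter, Finset.card_filter]
  exact h1.trans (Nat.mul_le_mul_left F hm2)

end Pool.Agent.H63.Arr
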