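import Pool.Agent.H63.Arr.Fat

/-!
The ring of double triangles. It has vertices `z_0, …, z_q`; between `z_g` and `z_(g+1)` there are
two long paths with `L` bundles each, whose first vertices form a triangle with `z_g`, and whose
last vertices form a triangle with `z_(g+1)`; one more bundle joins `z_0` to `z_q`. The bundles of
the paths and the last bundle have `p` edges, those of the triangles about `p/2`.
-/

set_option autoImplicit false

namespace Pool.Agent.H63.Arr

open Classical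

abbrev RV (q L : ℕ) : Type := Fin (q + 1) ⊕ (Fin q × Bool × Fin (L + 1))

abbrev RB (q L : ℕ) : Type :=
  Unit ⊕ ((Fin q × Bool × Fin L) ⊕ ((Fin q × Bool × Bool) ⊕ (Fin q × Bool)))

variable {q L : ℕ}

def zz (g : Fin q) (s : Bool) : Fin (q + 1) := if s then g.succ else g.castSucc

def en (L : ℕ) (s : Bool) : Fin (L + 1) := if s then Fin.last L else 0

/-- path bundle -/
abbrev bp (g : Fin q) (j : Bool) (i : Fin L) : RB q L := Sum.inr (Sum.inl (g, j, i))

/-- triangle bundle at `z` -/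
abbrev bz (L : ℕ) (g : Fin q) (s j : Bool) : RB q L := Sum.inr (Sum.inr (Sum.inl (g, s, j)))

/-- triangle bundle joining the two paths -/
abbrev bb (L : ℕ) (g : Fin q) (s : Bool) : RB q L := Sum.inr (Sum.inr (Sum.inr (g, s)))

def rbe : RB q L → RV q L × RV q L
  | Sum.inl _ => (Sum.inl 0, Sum.inl (Fin.last q))
  | Sum.inr (Sum.inl (g, j, i)) => (Sum.inr (g, j, i.castSucc), Sum.inr (g, j, i.succ))
  | Sum.inr (Sum.inr (Sum.inl (g, s, j))) => (Sum.inl (zz g s), Sum.inr (g, j, en L s))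
  | Sum.inr (Sum.inr (Sum.inr (g, s))) => (Sum.inr (g, false, en L s), Sum.inr (g, true, en L s))

def tau (p : ℕ) (j : Bool) : ℕ := if j then p / 2 else (p + 1) / 2

def rmu (p : ℕ) : RB q L → ℕ
  | Sum.inl _ => p
  | Sum.inr (Sum.inl _) => p
  | Sum.inr (Sum.inr (Sum.inl (_, _, j))) => tau p j
  | Sum.inr (Sum.inr (Sum.inr _)) => (p + 1) / 2

theorem sum_RB {M : Type} [AddCommMonoid M] (F : RB q L → M) :
    ∑ b, F b = F (Sum.inl ()) + ∑ g : Fin q, ((∑ j, ∑ i, F (bp g j i)) +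
      ((∑ s, ∑ j, F (bz L g s j)) + ∑ s, F (bb L g s))) := by
  rw [Fintype.sum_sum_type, Fintype.sum_sum_type, Fintype.sum_sum_type]
  simp only [Fintype.sum_prod_type, Finset.sum_add_distrib]
  simp

theorem tri (p : ℕ) (z a b : ℤ) :
    (p : ℤ) * |z - a| ≤ (tau p false : ℤ) * |z - a| + (tau p true : ℤ) * |z - b| +
      ((p + 1) / 2 : ℕ) * |a - b| ∧
    (p : ℤ) * |z - b| ≤ (tau p false : ℤ) * |z - a| + (tau p true : ℤ) * |z - b| +
      ((p + 1) / 2 : ℕ) * |a - b| := by
  have h1 : (tau p false : ℤ) + (tau p true : ℤ) = p := by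
    simp only [tau]
    simp
    omega
  have h2 : (tau p false : ℤ) = ((p + 1) / 2 : ℕ) := by simp [tau]
  have h3 : (tau p true : ℤ) ≤ (tau p false : ℤ) := by
    simp only [tau]
    simp
    omega
  have h4 : (0 : ℤ) ≤ (tau p true : ℤ) := Int.natCast_nonneg _
  have ha : |z - a| ≤ |z - b| + |a - b| := by
    have := abs_sub_le z b a
    rw [abs_sub_comm b a] at this
    exact this
  have hb : |z - b| ≤ |z - a| + |a - b| := abs_sub_le z a b
  have hn : 0 ≤ |a - b| := abs_nonneg _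
  rw [← h2, ← h1]
  constructor
  · nlinarith [mul_le_mul_of_nonneg_left ha h4, mul_le_mul_of_nonneg_right h3 hn]
  · nlinarith [mul_le_mul_of_nonneg_left hb (h4.trans h3)]

theorem ring_cut (p : ℕ) (X : RV q L → Prop) (h1 : ∃ v, X v) (h2 : ∃ v, ¬ X v) :
    2 * p ≤ bcut rbe (rmu p) X := by
  set φ : RV q L → ℤ := fun v => if X v then 1 else 0 with hφ
  have hC : ((bcut rbe (rmu p) X : ℕ) : ℤ) =
      ∑ b : RB q L, (rmu p b : ℤ) * |φ (rbe b).1 - φ (rbe b).2| := by
    unfold bcut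
    push_cast
    refine Finset.sum_congr rfl fun b _ => ?_
    by_cases ha : X (rbe b).1 <;> by_cases hb : X (rbe b).2 <;> simp [hφ, ha, hb]
  rw [sum_RB] at hC
  have hp : (0 : ℤ) ≤ p := Int.natCast_nonneg _
  set G : Fin q → ℤ := fun g => ((∑ j, ∑ i, (rmu p (bp g j i) : ℤ) *
      |φ (rbe (bp g j i)).1 - φ (rbe (bp g j i)).2|) +
      ((∑ s, ∑ j, (rmu p (bz L g s j) : ℤ) *
        |φ (rbe (bz L g s j)).1 - φ (rbe (bz L g s j)).2|) +
      ∑ s, (rmu p (bb L g s) : ℤ) *
        |φ (rbe (bb L g s)).1 - φ (rbe (bb L g s)).2|)) with hG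
  have hin : ∀ (g : Fin q) (j : Bool) (l : Fin (L + 1)),
      (p : ℤ) * (|φ (Sum.inl g.castSucc) - φ (Sum.inr (g, j, l))| +
        |φ (Sum.inr (g, j, l)) - φ (Sum.inl g.succ)|) ≤ G g := by
    intro g j l
    have e0 := walk_mid (fun i => φ (Sum.inr (g, false, i)))
      (fun i => (p : ℤ) * |φ (Sum.inr (g, false, i.castSucc)) - φ (Sum.inr (g, false, i.succ))|)
      p hp (fun i => le_rfl)
    have e1 := walk_mid (fun i => φ (Sum.inr (g, true, i)))
      (fun i => (p : ℤ) * |φ (Sum.inr (g, true, i.castSucc)) - φ (Sum.inr (g, true, i.succ))|)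
      p hp (fun i => le_rfl)
    have t0 := tri p (φ (Sum.inl g.castSucc)) (φ (Sum.inr (g, false, 0))) (φ (Sum.inr (g, true, 0)))
    have t1 := tri p (φ (Sum.inl g.succ)) (φ (Sum.inr (g, false, Fin.last L)))
      (φ (Sum.inr (g, true, Fin.last L)))
    simp only [hG, Fintype.sum_bool, rmu, rbe, zz, en, if_true, Bool.false_eq_true, if_false]
    have n0 := e0 0
    have n1 := e1 0
    have m0 : 0 ≤ (p : ℤ) * (|φ (Sum.inr (g, false, 0)) - φ (Sum.inr (g, false, 0))| +
      |φ (Sum.inr (g, false, 0)) - φ (Sum.inr (g, false, Fin.last L))|) :=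
      mul_nonneg hp (by positivity)
    have m1 : 0 ≤ (p : ℤ) * (|φ (Sum.inr (g, true, 0)) - φ (Sum.inr (g, true, 0))| +
      |φ (Sum.inr (g, true, 0)) - φ (Sum.inr (g, true, Fin.last L))|) :=
      mul_nonneg hp (by positivity)
    cases j with
    | false =>
      have a1 := mul_le_mul_of_nonneg_left (abs_sub_le (φ (Sum.inl g.castSucc))
        (φ (Sum.inr (g, false, 0))) (φ (Sum.inr (g, false, l)))) hp
      have a2 := mul_le_mul_of_nonneg_left (abs_sub_le (φ (Sum.inr (g, false, l)))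
        (φ (Sum.inr (g, false, Fin.last L))) (φ (Sum.inl g.succ))) hp
      have e2 := e0 l
      rw [abs_sub_comm (φ (Sum.inr (g, false, Fin.last L))) (φ (Sum.inl g.succ))] at a2
      rw [mul_add] at *
      linarith [t0.1, t1.1]
    | true =>
      have a1 := mul_le_mul_of_nonneg_left (abs_sub_le (φ (Sum.inl g.castSucc))
        (φ (Sum.inr (g, true, 0))) (φ (Sum.inr (g, true, l)))) hp
      have a2 := mul_le_mul_of_nonneg_left (abs_sub_le (φ (Sum.inr (g, true, l)))
        (φ (Sum.inr (g, true, Fin.last L))) (φ (Sum.inl g.succ))) hp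
      have e2 := e1 l
      rw [abs_sub_comm (φ (Sum.inr (g, true, Fin.last L))) (φ (Sum.inl g.succ))] at a2
      rw [mul_add] at *
      linarith [t0.2, t1.2]
  have hGz : ∀ g : Fin q, (p : ℤ) * |φ (Sum.inl g.castSucc) - φ (Sum.inl g.succ)| ≤ G g := by
    intro g
    refine le_trans (mul_le_mul_of_nonneg_left (abs_sub_le _ (φ (Sum.inr (g, true, 0))) _) hp)
      (hin g true 0)
  have hlink : (rmu p (Sum.inl () : RB q L) : ℤ) *
      |φ (rbe (Sum.inl () : RB q L)).1 - φ (rbe (Sum.inl () : RB q L)).2| =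
      (p : ℤ) * |φ (Sum.inl 0) - φ (Sum.inl (Fin.last q))| := rfl
  rw [hlink] at hC
  have hall : ∀ v : RV q L, 2 * (p : ℤ) * |φ v - φ (Sum.inl 0)| ≤
      ((bcut rbe (rmu p) X : ℕ) : ℤ) := by
    intro v
    have key : (p : ℤ) * (|φ (Sum.inl 0) - φ v| + |φ v - φ (Sum.inl (Fin.last q))|) ≤
        ∑ g, G g := by
      rcases v with m | ⟨g, j, l⟩
      · exact walk_mid (fun m => φ (Sum.inl m)) G p hp hGz m
      · exact walk_in (fun m => φ (Sum.inl m)) G p hp hGz g _ (hin g j l)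
    have h3 := mul_le_mul_of_nonneg_left
      (abs_sub_le (φ v) (φ (Sum.inl (Fin.last q))) (φ (Sum.inl 0))) hp
    rw [abs_sub_comm (φ (Sum.inl (Fin.last q))) (φ (Sum.inl 0))] at h3
    rw [abs_sub_comm (φ (Sum.inl 0)) (φ v)] at key
    rw [hC]
    rw [mul_add] at key h3
    linarith
  have hv : ∃ v, |φ v - φ (Sum.inl 0)| = 1 := by
    obtain ⟨v, hv⟩ := h1
    obtain ⟨w, hw⟩ := h2
    by_cases h0 : X (Sum.inl 0)
    · exact ⟨w, by simp [hφ, hw, h0]⟩
    · exact ⟨v, by simp [hφ, hv, h0]⟩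
  obtain ⟨v, hv⟩ := hv
  have := hall v
  rw [hv] at this
  omega

end Pool.Agent.H63.Arr
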