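import Pool.Agent.H63.Arr.Lin

/-!
Parts equal to one: if `a` parts are equal to `1` and some part is at least `2`, then
`f ≥ 2 ⌊(Σ k_i + a) / 2⌋ + 1`.
-/

set_option autoImplicit false

namespace Pool.Agent.H63.Arr

open Pool.Agent.Helper243Arrow
open Classical

variable {h : ℕ}

theorem conn_part {V B I : Type} [Fintype B] [Fintype I] [Nonempty I] (be : B → V × V)
    (x : B → ℕ) (hx : ∀ X : V → Prop, (∃ v, X v) → (∃ v, ¬ X v) → 1 ≤ bcut be x X)
    (π : V → I) (hπ : Function.Surjective π) :
    Fintype.card I ≤ (∑ b, if π (be b).1 = π (be b).2 then 0 else x b) + 1 := by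
  let Q : SimpleGraph I :=
    { Adj := fun p q => p ≠ q ∧ ∃ b, 0 < x b ∧ s(π (be b).1, π (be b).2) = s(p, q)
      symm := ⟨by
        rintro p q ⟨h1, b, h2, h3⟩
        exact ⟨h1.symm, b, h2, by rw [h3, Sym2.eq_swap]⟩⟩
      loopless := ⟨fun p hp => hp.1 rfl⟩ }
  have hconn : Q.Connected := by
    refine ⟨?_⟩
    intro p q
    by_contra hnr
    obtain ⟨v, hv⟩ := hπ p
    obtain ⟨u, hu⟩ := hπ q
    have h1 := hx (fun v => Q.Reachable p (π v)) ⟨v, by rw [hv]⟩ ⟨u, by rw [hu]; exact hnr⟩
    unfold bcut at h1
    obtain ⟨b, _, hb⟩ := Finset.exists_ne_zero_of_sum_ne_zero (Nat.one_le_iff_ne_zero.mp h1)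
    beta_reduce at hb
    by_cases h2 : (Q.Reachable p (π (be b).1) ↔ Q.Reachable p (π (be b).2))
    · simp [h2] at hb
    · rw [if_neg h2] at hb
      apply h2
      have h3 : π (be b).1 ≠ π (be b).2 := by
        intro h4
        apply h2
        rw [h4]
      have hadj : Q.Adj (π (be b).1) (π (be b).2) := ⟨h3, b, Nat.pos_of_ne_zero hb, rfl⟩
      exact ⟨fun h4 => h4.trans hadj.reachable, fun h4 => h4.trans hadj.symm.reachable⟩
  have h1 := hconn.card_vert_le_card_edgeSet_add_one
  rw [Nat.card_eq_fintype_card] at h1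
  have hch : ∀ e : Q.edgeSet, ∃ b, (π (be b).1 ≠ π (be b).2 ∧ 0 < x b) ∧
      s(π (be b).1, π (be b).2) = e.1 := by
    rintro ⟨e, he⟩
    induction e using Sym2.ind with
    | _ p q =>
      rw [SimpleGraph.mem_edgeSet] at he
      obtain ⟨h2, b, h3, h4⟩ := he
      refine ⟨b, ⟨?_, h3⟩, h4⟩
      intro h5
      rw [Sym2.eq_iff] at h4
      rcases h4 with ⟨h6, h7⟩ | ⟨h6, h7⟩
      · exact h2 (by rw [← h6, ← h7, h5])
      · exact h2 (by rw [← h6, ← h7, h5])
  choose f hf1 hf2 using hch
  have h2 : Nat.card Q.edgeSet ≤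
      Nat.card {b : B // π (be b).1 ≠ π (be b).2 ∧ 0 < x b} := by
    refine Nat.card_le_card_of_injective (fun e => ⟨f e, hf1 e⟩) ?_
    intro e e' hee
    have h3 : f e = f e' := congrArg Subtype.val hee
    apply Subtype.ext
    rw [← hf2 e, ← hf2 e', h3]
  have h3 : Nat.card {b : B // π (be b).1 ≠ π (be b).2 ∧ 0 < x b} ≤
      ∑ b, if π (be b).1 = π (be b).2 then 0 else x b := by
    rw [Nat.card_eq_fintype_card, Fintype.card_subtype, Finset.card_filter]
    refine Finset.sum_le_sum fun b _ => ?_
    by_cases h4 : π (be b).1 = π (be b).2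
    · simp [h4]
    · by_cases h5 : 0 < x b
      · simp [h4, h5]
        omega
      · simp [h4, h5]
  omega

theorem sum_blocks {V B I : Type} [Fintype B] [Fintype I] (be : B → V × V)
    (x : B → ℕ) (π : V → I) :
    ∑ p, bcut be x (fun v => π v = p) =
      2 * ∑ b, if π (be b).1 = π (be b).2 then 0 else x b := by
  unfold bcut
  rw [Finset.sum_comm, Finset.mul_sum]
  refine Finset.sum_congr rfl fun b _ => ?_
  by_cases h1 : π (be b).1 = π (be b).2
  · simp [h1]
  · rw [if_neg h1]
    have h2 : ∀ p : I, (if (π (be b).1 = p ↔ π (be b).2 = p) then 0 else x b) =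
        (if π (be b).1 = p then x b else 0) + (if π (be b).2 = p then x b else 0) := by
      intro p
      by_cases h3 : π (be b).1 = p
      · have h4 : ¬ π (be b).2 = p := fun h => h1 (h3.trans h.symm)
        simp [h3, h4]
      · by_cases h4 : π (be b).2 = p
        · simp [h3, h4]
        · simp [h3, h4]
    rw [Finset.sum_congr rfl fun p _ => h2 p, Finset.sum_add_distrib]
    simp
    omega

/-- A chain of `N` gadgets. -/
theorem exists_chain (hh : 1 ≤ h) : ∀ N : ℕ, ∃ C : Gad h, C.Conn ∧
    ∀ (κ : ℕ) (w : C.E → ℕ) (s : Fin h ⊕ Fin h → ℕ), ¬ 2 * h ∣ κ →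
      (∀ X : C.V → Prop, (∃ v, X v) → κ ≤ C.cut w s X) →
      ∃ (ι : Type) (_ : Fintype ι) (π : C.V → ι), Function.Surjective π ∧
        (∀ p, C.cut (fun _ => 1) (fun _ => 1) (fun v => π v = p) = 2 * h) ∧
        κ * Fintype.card ι + N ≤ ∑ p, C.cut w s (fun v => π v = p) := by
  obtain ⟨D, ⟨hDC, hDR⟩, hdiv⟩ := exists_div hh
  intro N
  induction N with
  | zero =>
    refine ⟨vert h, conn_vert h, ?_⟩
    intro κ w s _ hcut
    refine ⟨Unit, inferInstance, fun _ => (), fun _ => ⟨(), rfl⟩, ?_, ?_⟩
    · intro p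
      have h1 : (fun _ : (vert h).V => () = p) = fun _ => True := by
        funext v
        simp
      rw [h1, cut_all]
      simp
      omega
    · have h1 := hcut (fun _ => True) ⟨(), trivial⟩
      simpa using h1
  | succ N ih =>
    obtain ⟨C, hCC, hC⟩ := ih
    refine ⟨comp D C, conn_comp _ _ hDC hCC, ?_⟩
    intro κ w s hκ hcut
    set wD : D.E → ℕ := fun e => w (.inl e)
    set sD : Fin h ⊕ Fin h → ℕ := Sum.elim (fun i => s (.inl i)) (fun i => w (.inr (.inr i)))
      with hsD
    set wC : C.E → ℕ := fun e => w (.inr (.inl e))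
    set sC : Fin h ⊕ Fin h → ℕ := Sum.elim (fun i => w (.inr (.inr i))) (fun i => s (.inr i))
      with hsC
    have hcD : ∀ X : D.V → Prop, (∃ v, X v) → κ ≤ D.cut wD sD X := by
      intro X hX
      obtain ⟨v, hv⟩ := hX
      have h1 := hcut (Sum.elim X (fun _ => False)) ⟨Sum.inl v, hv⟩
      rw [cut_comp_left] at h1
      exact h1
    have hcC : ∀ X : C.V → Prop, (∃ v, X v) → κ ≤ C.cut wC sC X := by
      intro X hX
      obtain ⟨v, hv⟩ := hX
      have h1 := hcut (Sum.elim (fun _ => False) X) ⟨Sum.inr v, hv⟩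
      rw [cut_comp_right] at h1
      exact h1
    obtain ⟨ι, hι, π, hπ, ht, hs⟩ := hC κ wC sC hκ hcC
    have hnt : ¬ Tight κ D wD sD := fun hT => hκ (hdiv κ wD sD hT)
    unfold Tight at hnt
    push Not at hnt
    obtain ⟨X, hXne, hX1, hX2⟩ := hnt
    have hX3 : κ + 1 ≤ D.cut wD sD X := by
      have := hcD X hXne
      omega
    let πD : D.V → Option {v : D.V // ¬ X v} := fun v => if hv : X v then none else some ⟨v, hv⟩
    have hb0 : (fun v => πD v = none) = X := by
      funext v
      by_cases hv : X v <;> simp [πD, hv]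
    have hb1 : ∀ u : {v : D.V // ¬ X v}, (fun v => πD v = some u) = (fun v => v = u.1) := by
      intro u
      funext v
      by_cases hv : X v
      · have h1 : v ≠ u.1 := fun h => u.2 (h ▸ hv)
        simp [πD, hv, h1]
      · simp only [πD, hv, dif_neg, not_false_eq_true, Option.some.injEq, eq_iff_iff]
        exact ⟨fun h => congrArg Subtype.val h, fun h => Subtype.ext h⟩
    have hsurjD : Function.Surjective πD := by
      intro p
      cases p with
      | none =>
        obtain ⟨v, hv⟩ := hXne
        exact ⟨v, by simp [πD, hv]⟩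
      | some u => exact ⟨u.1, by simp [πD, u.2]⟩
    have htD : ∀ p, D.cut (fun _ => 1) (fun _ => 1) (fun v => πD v = p) = 2 * h := by
      intro p
      cases p with
      | none => rw [hb0]; exact hX1
      | some u => rw [hb1]; exact hDR u.1
    have hsD' : κ * Fintype.card (Option {v : D.V // ¬ X v}) + 1 ≤
        ∑ p, D.cut wD sD (fun v => πD v = p) := by
      rw [Fintype.sum_option, hb0, Fintype.card_option]
      have h1 : ∑ _u : {v : D.V // ¬ X v}, κ ≤ ∑ u, D.cut wD sD (fun v => πD v = some u) := by
        refine Finset.sum_le_sum fun u _ => ?_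
        rw [hb1]
        exact hcD _ ⟨u.1, rfl⟩
      rw [Finset.sum_const, Finset.card_univ, smul_eq_mul] at h1
      rw [mul_add, mul_one, mul_comm]
      omega
    refine ⟨Option {v : D.V // ¬ X v} ⊕ ι, inferInstance, Sum.map πD π, ?_, ?_, ?_⟩
    · exact Sum.map_surjective.mpr ⟨hsurjD, hπ⟩
    · rintro (p | p)
      · have h1 : (fun v : (comp D C).V => Sum.map πD π v = Sum.inl p) =
            Sum.elim (fun v => πD v = p) (fun _ => False) := by
          funext v
          rcases v with v | v <;> simp
        rw [h1, cut_comp_left, elim_one]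
        exact htD p
      · have h1 : (fun v : (comp D C).V => Sum.map πD π v = Sum.inr p) =
            Sum.elim (fun _ => False) (fun v => π v = p) := by
          funext v
          rcases v with v | v <;> simp
        rw [h1, cut_comp_right, elim_one]
        exact ht p
    · rw [Fintype.sum_sum_type, Fintype.card_sum]
      have h1 : ∀ p, (comp D C).cut w s (fun v => Sum.map πD π v = Sum.inl p) =
          D.cut wD sD (fun v => πD v = p) := by
        intro p
        have h1 : (fun v : (comp D C).V => Sum.map πD π v = Sum.inl p) =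
            Sum.elim (fun v => πD v = p) (fun _ => False) := by
          funext v
          rcases v with v | v <;> simp
        rw [h1, cut_comp_left]
      have h2 : ∀ p, (comp D C).cut w s (fun v => Sum.map πD π v = Sum.inr p) =
          C.cut wC sC (fun v => π v = p) := by
        intro p
        have h1 : (fun v : (comp D C).V => Sum.map πD π v = Sum.inr p) =
            Sum.elim (fun _ => False) (fun v => π v = p) := by
          funext v
          rcases v with v | v <;> simp
        rw [h1, cut_comp_right]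
      rw [Finset.sum_congr rfl fun p _ => h1 p, Finset.sum_congr rfl fun p _ => h2 p, mul_add]
      omega

/-- `2h` does not arrow the parts when `2h` is at most `Σ k_i` plus the number of ones. -/
theorem no_arrow (hh : 1 ≤ h) {r : ℕ} (ks : Fin r → ℕ)
    (hsum : 2 * h ≤ ∑ i, (ks i + if ks i = 1 then 1 else 0)) (j0 : Fin r) (hj2 : 2 ≤ ks j0)
    (hdiv : ¬ 2 * h ∣ ks j0) : ¬ Arrow (2 * h) ks := by
  intro hA
  set a := ∑ i, (if ks i = 1 then 1 else 0) with ha
  obtain ⟨C, hCC, hC⟩ := exists_chain hh (2 * a + 1)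
  obtain ⟨x, hx1, hx2⟩ := fat (closeEnds C) (fun _ => 1) (2 * h)
    (fun X h1 h2 => by simpa using close_cut C hCC 1 X h1 h2) ks hA
  have hxC : ∀ i, ∀ X : C.V → Prop, (∃ v, X v) →
      ks i ≤ C.cut (fun e => x i (.inl e)) (fun d => x i (.inr d)) X := by
    intro i X hX
    have h1 := hx2 i (fun v => match v with
      | none => False
      | some v => X v) (by
        obtain ⟨v, hv⟩ := hX
        exact ⟨some v, hv⟩) ⟨none, fun h => h⟩
    rw [bcut_close C _ _ (fun h => h)] at h1
    exact h1
  obtain ⟨ι, hι, π, hπ, ht, hs⟩ := hC (ks j0) (fun e => x j0 (.inl e)) (fun d => x j0 (.inr d))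
    hdiv (hxC j0)
  -- `ι` is nonempty
  set n := Fintype.card ι with hn
  have hblk : ∀ (y : C.E ⊕ (Fin h ⊕ Fin h) → ℕ) (p : ι),
      bcut (closeEnds C) y (fun v => Option.map π v = some p) =
        C.cut (fun e => y (.inl e)) (fun d => y (.inr d)) (fun v => π v = p) := by
    intro y p
    rw [bcut_close C y _ (by simp)]
    congr 1
    funext v
    simp
  have hnonempty : Nonempty ι := by
    by_contra hemp
    have h1 : IsEmpty ι := not_nonempty_iff.mp hemp
    have h2 : n = 0 := Fintype.card_eq_zero
    rw [h2] at hs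
    simp at hs
  obtain ⟨p0⟩ := hnonempty
  obtain ⟨v0, hv0⟩ := hπ p0
  have hnone : ∀ i, ks i ≤ bcut (closeEnds C) (x i) (fun v => Option.map π v = none) := by
    intro i
    exact hx2 i _ ⟨none, rfl⟩ ⟨some v0, by simp⟩
  have hπo : Function.Surjective (Option.map π) := by
    intro p
    cases p with
    | none => exact ⟨none, rfl⟩
    | some p =>
      obtain ⟨v, hv⟩ := hπ p
      exact ⟨some v, by simp [hv]⟩
  -- sums over the blocks
  have hS : ∀ i, ∑ p : Option ι, bcut (closeEnds C) (x i) (fun v => Option.map π v = p) =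
      bcut (closeEnds C) (x i) (fun v => Option.map π v = none) +
      ∑ p, C.cut (fun e => x i (.inl e)) (fun d => x i (.inr d)) (fun v => π v = p) := by
    intro i
    rw [Fintype.sum_option, Finset.sum_congr rfl fun p _ => hblk (x i) p]
  have hlow : ∀ i, (ks i + if ks i = 1 then 1 else 0) * (n + 1) +
      (if i = j0 then 2 * a + 1 else 0) ≤
      ∑ p : Option ι, bcut (closeEnds C) (x i) (fun v => Option.map π v = p) +
        2 * (if ks i = 1 then 1 else 0) := by
    intro i
    by_cases h1 : ks i = 1
    · have hne : i ≠ j0 := by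
        intro he
        rw [he] at h1
        omega
      have h2 := conn_part (closeEnds C) (x i) (fun X hX1 hX2 => by
        have := hx2 i X hX1 hX2
        rw [h1] at this
        exact this) (Option.map π) hπo
      rw [sum_blocks]
      rw [Fintype.card_option] at h2
      simp only [h1, if_true, hne, if_false]
      omega
    · have h3 : ks i * n ≤ ∑ p, C.cut (fun e => x i (.inl e)) (fun d => x i (.inr d))
          (fun v => π v = p) := by
        have h4 : ∑ _p : ι, ks i ≤ ∑ p, C.cut (fun e => x i (.inl e)) (fun d => x i (.inr d))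
            (fun v => π v = p) := by
          refine Finset.sum_le_sum fun p _ => hxC i _ ?_
          obtain ⟨v, hv⟩ := hπ p
          exact ⟨v, hv⟩
        rw [Finset.sum_const, Finset.card_univ, smul_eq_mul, mul_comm] at h4
        exact h4
      have h5 := hnone i
      rw [hS i]
      simp only [h1, if_false, add_zero, mul_zero]
      by_cases h6 : i = j0
      · subst h6
        simp only [if_true]
        rw [mul_add, mul_one]
        omega
      · simp only [h6, if_false]
        rw [mul_add, mul_one]
        omega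
  have htot : ∑ i, ∑ p : Option ι, bcut (closeEnds C) (x i) (fun v => Option.map π v = p) =
      2 * h * (n + 1) := by
    rw [Finset.sum_comm]
    have h1 : ∀ X : Option C.V → Prop, ∑ i, bcut (closeEnds C) (x i) X =
        bcut (closeEnds C) (fun _ => 1) X := by
      intro X
      unfold bcut
      rw [Finset.sum_comm]
      refine Finset.sum_congr rfl fun b _ => ?_
      split_ifs
      · simp
      · exact hx1 b
    rw [Finset.sum_congr rfl fun p _ => h1 _, Fintype.sum_option]
    have h2 : bcut (closeEnds C) (fun _ => 1) (fun v => Option.map π v = none) = 2 * h := by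
      have h3 : (fun v : Option C.V => Option.map π v = none) =
          (fun v => ¬ (fun v : Option C.V => v ≠ none) v) := by
        funext v
        cases v <;> simp
      rw [h3, bcut_compl, bcut_close C _ _ (by simp)]
      have h4 : (fun v : C.V => (some v : Option C.V) ≠ none) = fun _ => True := by
        funext v
        simp
      rw [h4, cut_all]
      simp
      omega
    rw [h2, Finset.sum_congr rfl fun p _ => (hblk (fun _ => 1) p).trans (ht p)]
    rw [Finset.sum_const, Finset.card_univ, smul_eq_mul]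
    ring
  have hfin : ∑ i, ((ks i + if ks i = 1 then 1 else 0) * (n + 1) +
      (if i = j0 then 2 * a + 1 else 0)) ≤
      ∑ i, (∑ p : Option ι, bcut (closeEnds C) (x i) (fun v => Option.map π v = p) +
        2 * (if ks i = 1 then 1 else 0)) := Finset.sum_le_sum fun i _ => hlow i
  have hR : ∑ i, (∑ p : Option ι, bcut (closeEnds C) (x i) (fun v => Option.map π v = p) +
        2 * (if ks i = 1 then 1 else 0)) = 2 * h * (n + 1) + 2 * a := by
    rw [Finset.sum_add_distrib, htot, ← Finset.mul_sum]
  have hL : ∑ i, ((ks i + if ks i = 1 then 1 else 0) * (n + 1) +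
      (if i = j0 then 2 * a + 1 else 0)) =
      (∑ i, (ks i + if ks i = 1 then 1 else 0)) * (n + 1) + (2 * a + 1) := by
    rw [Finset.sum_add_distrib, ← Finset.sum_mul, Finset.sum_ite_eq' Finset.univ j0
      (fun _ => 2 * a + 1)]
    simp
  rw [hR, hL] at hfin
  have h9 := Nat.mul_le_mul_right (n + 1) hsum
  omega

/-- Lower bound with ones. -/
theorem ones_bound (r : ℕ) (ks : Fin r → ℕ) (hr : 2 ≤ r) (hpos : ∀ i, 1 ≤ ks i)
    (hex : ∃ j, 2 ≤ ks j) (k : ℕ) (hk : Arrow k ks) :
    2 * ((∑ i, ks i + (Finset.univ.filter fun i => ks i = 1).card) / 2) + 1 ≤ k := by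
  obtain ⟨j0, hj0⟩ := hex
  have h1 : (Finset.univ.filter fun i => ks i = 1).card = ∑ i, (if ks i = 1 then 1 else 0) :=
    Finset.card_filter _ _
  by_contra hcon
  push Not at hcon
  set H := (∑ i, ks i + (Finset.univ.filter fun i => ks i = 1).card) / 2 with hH
  have h2 : 2 * H ≤ ∑ i, (ks i + if ks i = 1 then 1 else 0) := by
    rw [Finset.sum_add_distrib, ← h1]
    omega
  -- another part
  obtain ⟨j1, hj1⟩ : ∃ j1, j1 ≠ j0 := by
    by_contra hall
    push Not at hall
    have : Fintype.card (Fin r) ≤ 1 := Fintype.card_le_one_iff.mpr fun a b => by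
      rw [hall a, hall b]
    simp at this
    omega
  have h3 : (ks j0 + if ks j0 = 1 then 1 else 0) + (ks j1 + if ks j1 = 1 then 1 else 0) ≤
      ∑ i, (ks i + if ks i = 1 then 1 else 0) := by
    rw [← Finset.add_sum_erase Finset.univ _ (Finset.mem_univ j0)]
    refine Nat.add_le_add_left ?_ _
    exact Finset.single_le_sum (f := fun i => ks i + if ks i = 1 then 1 else 0)
      (fun _ _ => Nat.zero_le _) (Finset.mem_erase.mpr ⟨hj1, Finset.mem_univ j1⟩)
  have h4 : 2 ≤ ks j1 + if ks j1 = 1 then 1 else 0 := by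
    have := hpos j1
    split_ifs <;> omega
  have h5 : ks j0 < 2 * H := by
    rw [Finset.sum_add_distrib, ← h1] at h3
    omega
  refine no_arrow (h := H) (by omega) ks h2 j0 hj0 ?_ (arrow_mono (by omega) ks hk)
  intro hd
  have := Nat.le_of_dvd (by omega) hd
  omega

end Pool.Agent.H63.Arr
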